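import Pool.Agent.Y136.UB.Rel

/-!
# The length of the indecomposable relations
-/

open CategoryTheory AlgebraicGeometry Polynomial

universe u v

namespace Pool.Agent.Y136.UB

open Pool.Agent.H914 Pool.Agent.W534 VarClass Obj WeilCohomology IsWeilSystem

section Count

variable {L : Type*} [Fintype L] [DecidableEq L]

lemma sum_count {M : Type*} [AddCommMonoid M] (Q : List L) (g : L → M) :
    ∑ l, Q.count l • g l = (Q.map g).sum := by
  induction Q with
  | nil => simp
  | cons a Q ih =>
    rw [List.map_cons, List.sum_cons, ← ih]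
    have h1 : ∀ l, (a :: Q).count l • g l = (if a = l then g l else 0) + Q.count l • g l := by
      intro l
      rw [List.count_cons, add_smul, add_comm]
      congr 1
      by_cases h : a = l
      · simp [h]
      · simp [h]
    rw [Finset.sum_congr rfl fun l _ => h1 l, Finset.sum_add_distrib, Finset.sum_ite_eq]
    simp

lemma prod_count {M : Type*} [CommMonoid M] (Q : List L) (g : L → M) :
    ∏ l, g l ^ Q.count l = (Q.map g).prod := by
  induction Q with
  | nil => simp
  | cons a Q ih =>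
    rw [List.map_cons, List.prod_cons, ← ih]
    have h1 : ∀ l, g l ^ (a :: Q).count l = (if a = l then g l else 1) * g l ^ Q.count l := by
      intro l
      rw [List.count_cons, pow_add, mul_comm]
      congr 1
      by_cases h : a = l
      · simp [h]
      · simp [h]
    rw [Finset.prod_congr rfl fun l _ => h1 l, Finset.prod_mul_distrib, Finset.prod_ite_eq]
    simp

lemma count_split (Q : List L) (f g : L → ℕ) (h : f + g = fun l => Q.count l) :
    ∃ Q₁ Q₂ : List L, Q.Perm (Q₁ ++ Q₂) ∧ (fun l => Q₁.count l) = f ∧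
      (fun l => Q₂.count l) = g := by
  have hex : ∀ f : L → ℕ, ∃ Q₁ : List L, (fun l => Q₁.count l) = f := by
    intro f
    refine ⟨(Finsupp.toMultiset (Finsupp.equivFunOnFinite.symm f)).toList, ?_⟩
    funext l
    rw [← Multiset.coe_count, Multiset.coe_toList, Finsupp.count_toMultiset]
    rfl
  obtain ⟨Q₁, h1⟩ := hex f
  obtain ⟨Q₂, h2⟩ := hex g
  refine ⟨Q₁, Q₂, ?_, h1, h2⟩
  rw [List.perm_iff_count]
  intro l
  rw [List.count_append]
  have h3 := congrFun h l
  have h4 := congrFun h1 l
  have h5 := congrFun h2 l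
  simp only [Pi.add_apply] at h3 h4 h5
  omega

end Count

variable {k : Type u} [Field k] {𝒱 : VarClass k} {ops : CycleOps 𝒱}
  {W : WeilCohomology.{u, v} ops} {I : Type} {X : I → 𝒱.Obj} {J : I → Type}
  {fr : ∀ i, X i ⟶ X i}

/-- The entries of the list of a nonzero product of eigenvectors come from basis vectors. -/
lemma exists_labels {b : ∀ i, J i → W.H (X i)} {deg : (Σ i, J i) → ℕ} {μ : (Σ i, J i) → W.K}
    (hb : ∀ i, Submodule.span W.K (Set.range (b i)) = ⊤) (hb0 : ∀ i j, b i j ≠ 0)
    (hμ : ∀ i j, b i j ∈ Module.End.maxGenEigenspace (W.map (fr i)).toLinearMap (μ ⟨i, j⟩))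
    (hdeg : ∀ i j, b i j ∈ W.gr (X i) (deg ⟨i, j⟩)) {w : FreeMagma I}
    {L : List (I × ℕ × W.K)} {y : W.H (wordObj X w)} (h : IsEigProd W fr w L y) (hy : y ≠ 0) :
    ∃ Q : List (Σ i, J i), Q.map (fun l => (l.1, deg l, μ l)) = L := by
  induction h with
  | of i n a y hyn hya =>
    have hy' : (y : W.H (X i)) ≠ 0 := hy
    have h1 : y ∈ Submodule.span W.K (Set.range (b i)) := by rw [hb i]; exact Submodule.mem_top
    have h2 : y ∈ Submodule.span W.K (Set.range (b i) ∩ W.gr (X i) n) := by
      refine mem_span_inter (W.isInternal (X i)).submodule_iSupIndep ?_ h1 hyn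
      rintro _ ⟨j, rfl⟩
      exact ⟨_, hdeg i j⟩
    have h3 : y ∈ Submodule.span W.K ((Set.range (b i) ∩ W.gr (X i) n) ∩
        (Module.End.maxGenEigenspace (W.map (fr i)).toLinearMap a : Set (W.H (X i)))) := by
      refine mem_span_inter (Module.End.independent_maxGenEigenspace _) ?_ h2 hya
      rintro _ ⟨⟨j, rfl⟩, -⟩
      exact ⟨_, hμ i j⟩
    obtain ⟨j, hj1, hj2⟩ : ∃ j, b i j ∈ W.gr (X i) n ∧
        b i j ∈ Module.End.maxGenEigenspace (W.map (fr i)).toLinearMap a := by
      by_contra hcon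
      push Not at hcon
      have h4 : (Set.range (b i) ∩ W.gr (X i) n) ∩
          (Module.End.maxGenEigenspace (W.map (fr i)).toLinearMap a : Set (W.H (X i))) = ∅ := by
        ext x
        constructor
        · rintro ⟨⟨⟨j, rfl⟩, h5⟩, h6⟩
          exact absurd h6 (hcon j h5)
        · intro h; exact absurd h (Set.notMem_empty x)
      rw [h4, Submodule.span_empty] at h3
      exact hy' ((Submodule.mem_bot W.K).mp h3)
    refine ⟨[⟨i, j⟩], ?_⟩
    have h5 : deg ⟨i, j⟩ = n := by
      by_contra hcon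
      have h6 := (W.isInternal (X i)).submodule_iSupIndep.pairwiseDisjoint hcon
      exact hb0 i j ((Submodule.mem_bot W.K).mp (h6.le_bot ⟨hdeg i j, hj1⟩))
    have h6 : μ ⟨i, j⟩ = a := by
      by_contra hcon
      have h7 := (Module.End.independent_maxGenEigenspace
        (W.map (fr i)).toLinearMap).pairwiseDisjoint hcon
      exact hb0 i j ((Submodule.mem_bot W.K).mp (h7.le_bot ⟨hμ i j, hj2⟩))
    rw [List.map_cons, List.map_nil, h5, h6]
  | mul v w L M y z _ _ ihy ihz =>
    have hy0 : y ≠ 0 := by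
      rintro rfl
      exact hy (by rw [map_zero, zero_mul]; rfl)
    have hz0 : z ≠ 0 := by
      rintro rfl
      exact hy (by rw [map_zero, mul_zero]; rfl)
    obtain ⟨Q₁, h1⟩ := ihy hy0
    obtain ⟨Q₂, h2⟩ := ihz hz0
    exact ⟨Q₁ ++ Q₂, by rw [List.map_append, h1, h2]⟩

section

variable [Fintype (Σ i, J i)] {deg : (Σ i, J i) → ℕ} {μ : (Σ i, J i) → W.K} {p m : ℕ}
  {σ : W.K ≃+* ℂ} {n₀ D : ℕ}

/-- Indecomposable relations are short. -/
lemma length_le (hα : IsWeilSystem n₀ D (p ^ m) deg (fun l => σ (μ l))) {r C : ℕ}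
    (hr : Fintype.card (Σ i, J i) ≤ r) (hC : ∀ l, D * deg l ≤ C) (Q : List (Σ i, J i))
    (hQ : IsPrimitive ((p : W.K) ^ m) (Q.map fun l => (l.1, deg l, μ l))) :
    Q.length ≤ bound r C := by
  classical
  by_contra hcon
  push Not at hcon
  obtain ⟨-, ⟨n, R, hR, hn, hL⟩, hprim⟩ := hQ
  have hm1 : ∀ Q : List (Σ i, J i),
      ((Q.map fun l => (l.1, deg l, μ l)).map fun t => t.2.1) = Q.map deg := fun Q => by
    rw [List.map_map]; rfl
  have hm2 : ∀ Q : List (Σ i, J i),
      ((Q.map fun l => (l.1, deg l, μ l)).map fun t => t.2.2) = Q.map μ := fun Q => by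
    rw [List.map_map]; rfl
  rw [hm1] at hn
  rw [hm2] at hL
  have hprod : ∀ Q : List (Σ i, J i), σ (Q.map μ).prod = ∏ l, σ (μ l) ^ Q.count l := by
    intro Q
    rw [prod_count Q (fun l => σ (μ l)), map_list_prod, List.map_map]
    rfl
  have hdsum : ∀ Q : List (Σ i, J i), ∑ l, Q.count l * deg l = (Q.map deg).sum := by
    intro Q
    rw [← sum_count Q deg]
    rfl
  have hTV : TV D (p ^ m) deg (fun l => σ (μ l)) (fun l => Q.count l) := by
    refine tv_of_root hα (n := n) (by rw [hdsum, hn]) hR ?_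
    rw [← hprod, ← map_pow, hL, map_pow, map_pow, map_natCast]
    push_cast
    rfl
  have hbig : bound r C < ∑ l, Q.count l := by
    have h1 := sum_count Q (fun _ => (1 : ℕ))
    simp only [smul_eq_mul, mul_one, List.map_const', List.sum_replicate] at h1
    rw [h1]
    exact hcon
  obtain ⟨f, g, hfg, hf0, hg0, hf1, hf2, -, -⟩ := exists_split hr
    (slopes D (p ^ m) deg fun l => σ (μ l)) (fun c hc j => by
      have h1 := hα.slopes_bounded hc j
      have h2 : ((D * deg j : ℕ) : ℤ) ≤ C := by exact_mod_cast hC j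
      push_cast at h2
      rw [abs_le]
      exact ⟨by linarith [h1.1], by linarith [h1.2]⟩) deg (fun l => Q.count l) hTV.1 hTV.2 hbig
  obtain ⟨Q₁, Q₂, hperm, h1, h2⟩ := count_split Q f g hfg
  obtain ⟨n₁, hn₁⟩ := id hf2
  have hn₁' : ∑ l, f l * deg l = 2 * n₁ := by omega
  obtain ⟨s, hs, h3⟩ := exists_root hα (e := f) ⟨hf1, hf2⟩ hn₁'
  have hT1 : IsTateList ((p : W.K) ^ m) (Q₁.map fun l => (l.1, deg l, μ l)) := by
    refine ⟨n₁, s, hs, ?_, ?_⟩
    · rw [hm1, ← hdsum, ← hn₁', ← h1]
    · rw [hm2]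
      apply σ.injective
      rw [map_pow, hprod]
      rw [← h1] at h3
      rw [h3, map_pow, map_pow, map_natCast]
      push_cast
      rfl
  have hsub : Q₁.Subperm Q :=
    (List.Sublist.subperm (List.sublist_append_left Q₁ Q₂)).trans hperm.symm.subperm
  obtain ⟨Q', hQ', hsl⟩ := hsub
  have hK := hprim (Q'.map fun l => (l.1, deg l, μ l)) (hsl.map _)
    (tate_perm (hQ'.symm.map _) hT1)
  have hlen : Q.length = Q₁.length + Q₂.length := by rw [hperm.length_eq, List.length_append]
  have hl1 : Q₁.length ≠ 0 := by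
    intro h
    rw [List.length_eq_zero_iff] at h
    subst h
    refine hf0 ?_
    rw [← h1]
    funext l
    simp
  have hl2 : Q₂.length ≠ 0 := by
    intro h
    rw [List.length_eq_zero_iff] at h
    subst h
    refine hg0 ?_
    rw [← h2]
    funext l
    simp
  have hlQ := hQ'.length_eq
  rcases hK with hK | hK
  · have := congrArg List.length hK
    simp only [List.length_map, List.length_nil] at this
    omega
  · have := congrArg List.length hK
    simp only [List.length_map] at this
    omega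

end

/-- The length of the indecomposable relations between the eigenvalues is bounded. -/
theorem primitive_length_le [Fintype I] {p m : ℕ} (σ : W.K ≃+* ℂ) {Φ : FrobSystem W p}
    (hp : 1 < p)
    {D : ℕ} (hD : 0 < D) (hm : 0 < m) (hX : ∀ i, IsModel Φ D m (fr i)) {r d : ℕ}
    (hr : ∑ i, Module.finrank W.K (W.H (X i)) ≤ r) (hd : ∀ i, (X i).dim ≤ d)
    (w : FreeMagma I) (L : List (I × ℕ × W.K)) (hL : IsPrimitive ((p : W.K) ^ m) L)
    (y : W.H (wordObj X w)) (hy : y ≠ 0) (h : IsEigProd W fr w L y) :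
    L.length ≤ bound r (2 * d * D) := by
  obtain ⟨b, deg, μ, hμ, hgr, hα, hcard, hdeg⟩ := exists_weil_basis σ hp hD hm hX hr hd
  obtain ⟨Q, rfl⟩ := exists_labels (b := fun i j => b i j) (fun i => (b i).span_eq)
    (fun i j => (b i).ne_zero j) hμ hgr h hy
  rw [List.length_map]
  refine length_le hα hcard (fun l => ?_) Q hL
  calc D * deg l ≤ D * (2 * d) := Nat.mul_le_mul_left _ (hdeg l)
    _ = 2 * d * D := by ring

end Pool.Agent.Y136.UB
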