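import Pool.Agent.Y136.UB.Defs

/-!
# Indecomposable solutions of homogeneous linear equations
-/

namespace Pool.Agent.Y136.UB

/-- A set of integral vectors contains a subset of at most `card J` vectors with the same
orthogonal complement. -/
lemma exists_rows {J : Type*} [Fintype J] (S : Set (J → ℤ)) :
    ∃ T : Finset (J → ℤ), (∀ c ∈ T, c ∈ S) ∧ T.card ≤ Fintype.card J ∧
      ∀ e : J → ℤ, (∀ c ∈ T, ∑ j, e j * c j = 0) → ∀ c ∈ S, ∑ j, e j * c j = 0 := by
  classical
  let ι : (J → ℤ) → (J → ℚ) := fun c j => (c j : ℚ)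
  have hι : Function.Injective ι := by
    intro a b h
    funext j
    have h1 : ((a j : ℤ) : ℚ) = ((b j : ℤ) : ℚ) := congrFun h j
    exact_mod_cast h1
  obtain ⟨B, hBS, hspan, hlin⟩ := exists_linearIndependent ℚ (ι '' S)
  have hBfin : B.Finite := hlin.setFinite
  have hpre : (ι ⁻¹' B).Finite := hBfin.preimage hι.injOn
  refine ⟨hpre.toFinset, ?_, ?_, ?_⟩
  · intro c hc
    rw [Set.Finite.mem_toFinset] at hc
    obtain ⟨c', hc', h⟩ := hBS hc
    rwa [← hι h]
  · have h1 : (hpre.toFinset.image ι).card = hpre.toFinset.card :=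
      Finset.card_image_of_injective _ hι
    rw [← h1]
    have h2 : hpre.toFinset.image ι ⊆ hBfin.toFinset := by
      intro x hx
      rw [Finset.mem_image] at hx
      obtain ⟨c, hc, rfl⟩ := hx
      rw [Set.Finite.mem_toFinset] at hc ⊢
      exact hc
    refine (Finset.card_le_card h2).trans ?_
    have : Fintype B := hBfin.fintype
    have h3 := hlin.fintype_card_le_finrank
    rw [Module.finrank_fintype_fun_eq_card] at h3
    rwa [← Set.toFinset_card, ← Set.Finite.toFinset_eq_toFinset hBfin] at h3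
  · intro e he c hc
    let L : (J → ℚ) →ₗ[ℚ] ℚ :=
      { toFun := fun x => ∑ j, (e j : ℚ) * x j
        map_add' := fun x y => by simp [mul_add, Finset.sum_add_distrib]
        map_smul' := fun a x => by
          simp only [Pi.smul_apply, smul_eq_mul, RingHom.id_apply, Finset.mul_sum]
          exact Finset.sum_congr rfl fun j _ => by ring }
    have h1 : ∀ x ∈ B, L x = 0 := by
      intro x hx
      obtain ⟨c', hc', rfl⟩ := hBS hx
      have h2 := he c' (by rw [Set.Finite.mem_toFinset]; exact hx)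
      show ∑ j, (e j : ℚ) * ((c' j : ℤ) : ℚ) = 0
      exact_mod_cast h2
    have h2 : ι c ∈ Submodule.span ℚ B := by
      rw [hspan]; exact Submodule.subset_span ⟨c, hc, rfl⟩
    have h3 : L (ι c) = 0 := by
      have h4 : Submodule.span ℚ B ≤ LinearMap.ker L :=
        Submodule.span_le.mpr fun x hx => LinearMap.mem_ker.mpr (h1 x hx)
      exact LinearMap.mem_ker.mp (h4 h2)
    have h4 : ∑ j, (e j : ℚ) * ((c j : ℤ) : ℚ) = 0 := h3
    exact_mod_cast h4




lemma div_bound {J : Type*} [Fintype J] {r C : ℕ} (hr : Fintype.card J ≤ r) {c : J → ℤ}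
    (hc : ∀ j, |c j| ≤ C) {e : J → ℕ} {n : ℕ} (hn : 0 < n)
    (he : ∑ j, (e j : ℤ) * c j = 0) (t : ℕ) :
    |∑ j, ((t * e j / n : ℕ) : ℤ) * c j| ≤ r * C := by
  have h1 : (n : ℤ) * ∑ j, ((t * e j / n : ℕ) : ℤ) * c j =
      - ∑ j, ((t * e j % n : ℕ) : ℤ) * c j := by
    have h2 : ∀ j, (n : ℤ) * (((t * e j / n : ℕ) : ℤ) * c j) =
        (t : ℤ) * ((e j : ℤ) * c j) - ((t * e j % n : ℕ) : ℤ) * c j := by
      intro j
      have h3 : (n : ℤ) * ((t * e j / n : ℕ) : ℤ) = (t : ℤ) * e j - ((t * e j % n : ℕ) : ℤ) := by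
        have := Nat.div_add_mod (t * e j) n
        have h4 : ((n * (t * e j / n) + t * e j % n : ℕ) : ℤ) = ((t * e j : ℕ) : ℤ) := by
          rw [this]
        push_cast at h4 ⊢
        linarith
      rw [← mul_assoc, h3]
      ring
    rw [Finset.mul_sum, Finset.sum_congr rfl fun j _ => h2 j, Finset.sum_sub_distrib,
      ← Finset.mul_sum, he, mul_zero, zero_sub]
  have h2 : |(n : ℤ) * ∑ j, ((t * e j / n : ℕ) : ℤ) * c j| ≤ n * (r * C) := by
    rw [h1, abs_neg]
    refine (Finset.abs_sum_le_sum_abs _ _).trans ?_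
    have h3 : ∀ j ∈ (Finset.univ : Finset J), |((t * e j % n : ℕ) : ℤ) * c j| ≤ n * C := by
      intro j _
      rw [abs_mul]
      refine mul_le_mul ?_ (hc j) (abs_nonneg _) (by positivity)
      rw [abs_of_nonneg (by positivity)]
      exact_mod_cast (Nat.mod_lt _ hn).le
    refine (Finset.sum_le_card_nsmul _ _ _ h3).trans ?_
    rw [Finset.card_univ, nsmul_eq_mul]
    have h4 : (Fintype.card J : ℤ) ≤ r := by exact_mod_cast hr
    have h5 : (0 : ℤ) ≤ n * C := by positivity
    nlinarith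
  rw [abs_mul, abs_of_nonneg (by positivity : (0 : ℤ) ≤ n)] at h2
  have h3 : (0 : ℤ) < n := by exact_mod_cast hn
  exact le_of_mul_le_mul_left h2 h3

/-- Large solutions are decomposable. -/
theorem exists_split {J : Type*} [Fintype J] {r C : ℕ} (hr : Fintype.card J ≤ r)
    (S : Set (J → ℤ)) (hS : ∀ c ∈ S, ∀ j, |c j| ≤ C) (deg : J → ℕ) (e : J → ℕ)
    (he : ∀ c ∈ S, ∑ j, (e j : ℤ) * c j = 0) (hev : Even (∑ j, e j * deg j))
    (hbig : bound r C < ∑ j, e j) :
    ∃ f g : J → ℕ, f + g = e ∧ f ≠ 0 ∧ g ≠ 0 ∧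
      (∀ c ∈ S, ∑ j, (f j : ℤ) * c j = 0) ∧ Even (∑ j, f j * deg j) ∧
      (∀ c ∈ S, ∑ j, (g j : ℤ) * c j = 0) ∧ Even (∑ j, g j * deg j) := by
  classical
  obtain ⟨T, hTS, hTc, hT⟩ := exists_rows S
  set n := ∑ j, e j with hn
  have hn0 : 0 < n := lt_of_le_of_lt (Nat.zero_le _) hbig
  -- the largest coordinate
  obtain ⟨j₀, hj₀⟩ : ∃ j₀, 2 * (2 * r * C + 1) ^ r < e j₀ := by
    by_contra hcon
    push Not at hcon
    have h1 : n ≤ Fintype.card J * (2 * (2 * r * C + 1) ^ r) := by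
      rw [hn]
      refine (Finset.sum_le_card_nsmul _ _ _ fun j _ => hcon j).trans ?_
      rw [Finset.card_univ, smul_eq_mul]
    have h2 : Fintype.card J * (2 * (2 * r * C + 1) ^ r) ≤ bound r C := by
      unfold bound
      exact Nat.mul_le_mul hr (by omega)
    omega
  have hen : ∀ j, e j ≤ n := fun j => by
    rw [hn]; exact Finset.single_le_sum (f := e) (fun _ _ => Nat.zero_le _) (Finset.mem_univ j)
  have he0 : 0 < e j₀ := lt_of_le_of_lt (Nat.zero_le _) hj₀
  -- times
  let t : ℕ → ℕ := fun v => (v * n + (e j₀ - 1)) / e j₀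
  let E : ℕ → J → ℕ := fun v j => t v * e j / n
  have ht1 : ∀ v, v * n ≤ t v * e j₀ := by
    intro v
    have h1 := Nat.div_add_mod (v * n + (e j₀ - 1)) (e j₀)
    have h2 := Nat.mod_lt (v * n + (e j₀ - 1)) he0
    have h3 : e j₀ * t v = t v * e j₀ := mul_comm _ _
    have h4 : e j₀ * ((v * n + (e j₀ - 1)) / e j₀) = e j₀ * t v := rfl
    omega
  have ht2 : ∀ v, t v * e j₀ < v * n + e j₀ := by
    intro v
    have h1 := Nat.div_mul_le_self (v * n + (e j₀ - 1)) (e j₀)
    have h4 : (v * n + (e j₀ - 1)) / e j₀ * e j₀ = t v * e j₀ := rfl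
    omega
  have hE0 : ∀ v, E v j₀ = v := by
    intro v
    refine Nat.div_eq_of_lt_le (ht1 v) ?_
    have h1 := ht2 v
    have h2 := hen j₀
    calc t v * e j₀ < v * n + e j₀ := h1
      _ ≤ v * n + n := by omega
      _ = (v + 1) * n := by ring
  have htmono : ∀ v v', v ≤ v' → t v ≤ t v' := by
    intro v v' h
    exact Nat.div_le_div_right (Nat.add_le_add_right (Nat.mul_le_mul_right _ h) _)
  have hEmono : ∀ v v', v ≤ v' → ∀ j, E v j ≤ E v' j := by
    intro v v' h j
    exact Nat.div_le_div_right (Nat.mul_le_mul_right _ (htmono v v' h))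
  have htn : ∀ v, v < e j₀ → t v ≤ n := by
    intro v hv
    have h1 := ht2 v
    by_contra hcon
    push Not at hcon
    have h2 : (n + 1) * e j₀ ≤ t v * e j₀ := Nat.mul_le_mul_right _ hcon
    have h3 : v * n + n ≤ e j₀ * n := by
      have : (v + 1) * n ≤ e j₀ * n := Nat.mul_le_mul_right _ hv
      linarith
    nlinarith
  have hEe : ∀ v, v < e j₀ → ∀ j, E v j ≤ e j := by
    intro v hv j
    have h1 : t v * e j / n ≤ n * e j / n := Nat.div_le_div_right (Nat.mul_le_mul_right _ (htn v hv))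
    rwa [Nat.mul_div_cancel_left _ hn0] at h1
  -- the values of the equations
  have hval : ∀ c ∈ T, ∀ v, |∑ j, (E v j : ℤ) * c j| ≤ r * C := fun c hc v =>
    div_bound hr (hS c (hTS c hc)) hn0 (he c (hTS c hc)) (t v)
  let Φ : Fin (e j₀) → (T → Fin (2 * r * C + 1)) × Fin 2 := fun v =>
    (fun c => ⟨(∑ j, (E v j : ℤ) * c.1 j + r * C).toNat, by
      have := abs_le.mp (hval c.1 c.2 v)
      have h1 : (0 : ℤ) ≤ ∑ j, (E v j : ℤ) * c.1 j + r * C := by linarith [this.1]
      zify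
      rw [Int.toNat_of_nonneg h1]
      push_cast
      linarith [this.2]⟩,
     ⟨(∑ j, E v j * deg j) % 2, Nat.mod_lt _ two_pos⟩)
  have hcard : Fintype.card ((T → Fin (2 * r * C + 1)) × Fin 2) < Fintype.card (Fin (e j₀)) := by
    rw [Fintype.card_prod, Fintype.card_fun, Fintype.card_fin, Fintype.card_fin, Fintype.card_fin,
      Fintype.card_coe]
    have h1 : (2 * r * C + 1) ^ T.card ≤ (2 * r * C + 1) ^ r :=
      Nat.pow_le_pow_right (by omega) (hTc.trans hr)
    omega
  obtain ⟨v, v', hvv, hΦ⟩ := Fintype.exists_ne_map_eq_of_card_lt Φ hcard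
  wlog hlt : v < v' generalizing v v'
  · exact this v' v hvv.symm hΦ.symm (lt_of_le_of_ne (not_lt.mp hlt) hvv.symm)
  have hlt' : (v : ℕ) < v' := hlt
  have hle : ∀ j, E v j ≤ E v' j := hEmono _ _ hlt'.le
  have hsum : ∀ c ∈ T, ∑ j, ((E v' j - E v j : ℕ) : ℤ) * c j = 0 := by
    intro c hc
    have h1 := congrFun (congrArg Prod.fst hΦ) ⟨c, hc⟩
    have h2 := congrArg Fin.val h1
    simp only [Φ] at h2
    have h3 := abs_le.mp (hval c hc v)
    have h4 := abs_le.mp (hval c hc v')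
    have h5 : (0 : ℤ) ≤ ∑ j, (E v j : ℤ) * c j + r * C := by linarith [h3.1]
    have h6 : (0 : ℤ) ≤ ∑ j, (E v' j : ℤ) * c j + r * C := by linarith [h4.1]
    have h7 : (∑ j, (E v j : ℤ) * c j + r * C) = ∑ j, (E v' j : ℤ) * c j + r * C := by
      rw [← Int.toNat_of_nonneg h5, ← Int.toNat_of_nonneg h6, h2]
    have h8 : ∀ j, ((E v' j - E v j : ℕ) : ℤ) * c j = (E v' j : ℤ) * c j - (E v j : ℤ) * c j := by
      intro j
      rw [Nat.cast_sub (hle j), sub_mul]
    rw [Finset.sum_congr rfl fun j _ => h8 j, Finset.sum_sub_distrib]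
    linarith
  have hpar : (∑ j, E v j * deg j) % 2 = (∑ j, E v' j * deg j) % 2 :=
    congrArg Fin.val (congrArg Prod.snd hΦ)
  have hsub : ∑ j, (E v' j - E v j) * deg j + ∑ j, E v j * deg j = ∑ j, E v' j * deg j := by
    rw [← Finset.sum_add_distrib]
    refine Finset.sum_congr rfl fun j _ => ?_
    rw [← add_mul, Nat.sub_add_cancel (hle j)]
  have hfe : ∀ j, E v' j - E v j ≤ e j := fun j =>
    (Nat.sub_le _ _).trans (hEe v' v'.2 j)
  have hS1 : ∀ c ∈ S, ∑ j, ((E v' j - E v j : ℕ) : ℤ) * c j = 0 :=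
    hT (fun j => ((E v' j - E v j : ℕ) : ℤ)) hsum
  have hev1 : Even (∑ j, (E v' j - E v j) * deg j) := by
    rw [Nat.even_iff]; omega
  refine ⟨fun j => E v' j - E v j, fun j => e j - (E v' j - E v j), ?_, ?_, ?_, hS1, hev1,
    ?_, ?_⟩
  · funext j
    exact Nat.add_sub_cancel' (hfe j)
  · intro h
    have := congrFun h j₀
    simp only [hE0, Pi.zero_apply] at this
    omega
  · intro h
    have := congrFun h j₀
    simp only [hE0, Pi.zero_apply] at this
    have h2 := v'.2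
    omega
  · intro c hc
    have h8 : ∀ j, ((e j - (E v' j - E v j) : ℕ) : ℤ) * c j =
        (e j : ℤ) * c j - ((E v' j - E v j : ℕ) : ℤ) * c j := by
      intro j
      rw [Nat.cast_sub (hfe j), sub_mul]
    rw [Finset.sum_congr rfl fun j _ => h8 j, Finset.sum_sub_distrib, he c hc, hS1 c hc, sub_zero]
  · have h1 : ∑ j, (e j - (E v' j - E v j)) * deg j + ∑ j, (E v' j - E v j) * deg j =
        ∑ j, e j * deg j := by
      rw [← Finset.sum_add_distrib]
      refine Finset.sum_congr rfl fun j _ => ?_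
      rw [← add_mul, Nat.sub_add_cancel (hfe j)]
    show Even (∑ j, (e j - (E v' j - E v j)) * deg j)
    rw [Nat.even_iff] at hev hev1 ⊢
    omega

end Pool.Agent.Y136.UB
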