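import Pool.Agent.Y136.MG.Defs

/-!
# Universal bounds for the Tate conjecture on products: definitions
-/

open CategoryTheory AlgebraicGeometry Polynomial

universe u v

namespace Pool.Agent.Y136.UB

open Pool.Agent.H914 Pool.Agent.W534 VarClass Obj WeilCohomology

/-- The number `r (2 (2 r C + 1) ^ r + 1)`. -/
def bound (r C : ℕ) : ℕ := r * (2 * (2 * r * C + 1) ^ r + 1)

/-- The characteristic polynomial of the operator `f` on the subspace `gr n` has integral
coefficients, and its complex roots have absolute value `q ^ (n / 2)`. -/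
def IsWeilOp {F V : Type*} [Field F] [AddCommGroup V] [Module F V] [Module.Finite F V]
    (gr : ℕ → Submodule F V) (q : ℕ) (f : Module.End F V) : Prop :=
  ∀ n, ∃ h : ℤ[X], charpolyOn f (gr n) = h.map (Int.castRingHom F) ∧
    ∀ z : ℂ, aeval z h = 0 → ‖z‖ ^ 2 = (q : ℝ) ^ n

/-- For all valuations of the field `F` the `D`-th powers of the eigenvalues of `f` have the same
valuations as integral powers of `q`. -/
def HasSlopes {F V : Type*} [Field F] [AddCommGroup V] [Module F V] (q : F) (D : ℕ)
    (f : Module.End F V) : Prop :=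
  ∀ α : F, f.HasEigenvalue α → ∀ v : ValuationSubring F, ∃ u : ℤ,
    α ^ D / q ^ u ∈ v ∧ q ^ u / α ^ D ∈ v

/-- `fr` is the Frobenius endomorphism of a model of `X` over the field with `p ^ m` elements: some
iterate of `fr` is an iterate of the Frobenius endomorphism of the system `Φ`; the characteristic
polynomials of `fr^*` are integral and satisfy the Riemann hypothesis (Deligne), and the slopes of
`fr^*` are in `(1 / D) ℤ`. -/
structure IsModel {k : Type u} [Field k] {𝒱 : VarClass k} {ops : CycleOps 𝒱}
    {W : WeilCohomology.{u, v} ops} {p : ℕ} (Φ : FrobSystem W p) (D m : ℕ)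
    {X : 𝒱.Obj} (fr : X ⟶ X) : Prop where
  frobenius : ∃ a c : ℕ, 0 < a ∧ 0 < c ∧ a * m = c * Φ.e X ∧
    W534.iter fr a = W534.iter (Φ.Fr X) c
  weil : IsWeilOp (W.gr X) (p ^ m) (W.map fr).toLinearMap
  slopes : HasSlopes ((p : W.K) ^ m) D (W.map fr).toLinearMap

/-- The subspaces `A n` of the algebra contain its unit (for `n = 0`) and are closed under products
(with the sum of the indices). -/
def IsGradedSubalgebra {F V : Type*} [Field F] [Ring V] [Algebra F V] (A : ℕ → Submodule F V) :
    Prop :=
  1 ∈ A 0 ∧ ∀ m n x y, x ∈ A m → y ∈ A n → x * y ∈ A (m + n)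

/-- The homomorphism `f` maps the subspaces `A n` to the subspaces `B n`. -/
def MapsInto {F V V' : Type*} [Field F] [Ring V] [Algebra F V] [Ring V'] [Algebra F V']
    (f : V →ₐ[F] V') (A : ℕ → Submodule F V) (B : ℕ → Submodule F V') : Prop :=
  ∀ n x, x ∈ A n → f x ∈ B n

/-- The subspaces `A Z n` of the cohomology of the varieties `Z` contain the unit classes and are
closed under products and pull-backs; examples are the spaces spanned by the classes of algebraic
cycles, and the spaces spanned by the products of classes of divisors. -/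
structure IsClosedSystem {k : Type u} [Field k] {𝒱 : VarClass k} {ops : CycleOps 𝒱}
    (W : WeilCohomology.{u, v} ops) (A : ∀ Z : 𝒱.Obj, ℕ → Submodule W.K (W.H Z)) : Prop where
  subalgebra : ∀ Z, IsGradedSubalgebra (A Z)
  pull_mem : ∀ Y Z (f : Y ⟶ Z), MapsInto (W.map f) (A Z) (A Y)

/-- All Tate classes on the variety `Z` (the generalised eigenvectors of the Frobenius
endomorphisms relative to finite fields, with `q` elements, with eigenvalue `q ^ n` and of degree
`2 n`) are in the spaces `A Z n`. -/
def TateClassesIn {k : Type u} [Field k] {𝒱 : VarClass k} {ops : CycleOps 𝒱}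
    {W : WeilCohomology.{u, v} ops} {p : ℕ} (Φ : FrobSystem W p)
    (A : ∀ Z : 𝒱.Obj, ℕ → Submodule W.K (W.H Z)) (Z : 𝒱.Obj) : Prop :=
  ∀ s n, 0 < s → genTate Φ Z s n ≤ A Z n

/-- The class `y` on the product of the varieties `X i` along the word `w` is an external product
of generalised eigenvectors of the Frobenius endomorphisms `fr i`; the list records for each factor
its index, the degree and the eigenvalue. -/
inductive IsEigProd {k : Type u} [Field k] {𝒱 : VarClass k} {ops : CycleOps 𝒱}
    (W : WeilCohomology.{u, v} ops) {I : Type} {X : I → 𝒱.Obj} (fr : ∀ i, X i ⟶ X i) :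
    ∀ w : FreeMagma I, List (I × ℕ × W.K) → W.H (wordObj X w) → Prop
  | of (i : I) (n : ℕ) (a : W.K) (y : W.H (X i)) (hy : y ∈ W.gr (X i) n)
      (ha : y ∈ Module.End.maxGenEigenspace (W.map (fr i)).toLinearMap a) :
      IsEigProd W fr (.of i) [(i, n, a)] y
  | mul (v w : FreeMagma I) (L M : List (I × ℕ × W.K)) (y : W.H (wordObj X v))
      (z : W.H (wordObj X w)) (hy : IsEigProd W fr v L y) (hz : IsEigProd W fr w M z) :
      IsEigProd W fr (.mul v w) (L ++ M)
        (W.map (fst (wordObj X v) (wordObj X w)) y * W.map (snd (wordObj X v) (wordObj X w)) z)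

/-- The sum of the degrees is an even number `2 n`, and the product of the eigenvalues is `q ^ n`
multiplied by a root of unity. -/
def IsTateList {I F : Type*} [Field F] (q : F) (L : List (I × ℕ × F)) : Prop :=
  ∃ n R : ℕ, 0 < R ∧ (L.map fun t => t.2.1).sum = 2 * n ∧
    (L.map fun t => t.2.2).prod ^ R = q ^ (n * R)

/-- The relation between the eigenvalues of the list is indecomposable: no proper part of the list
has this property. -/
def IsPrimitive {I F : Type*} [Field F] (q : F) (L : List (I × ℕ × F)) : Prop :=
  L ≠ [] ∧ IsTateList q L ∧ ∀ K, K.Sublist L → IsTateList q K → K = [] ∨ K = L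

/-- For each indecomposable relation between eigenvalues there is a product of eigenvectors with
these eigenvalues which is not orthogonal to all algebraic classes. -/
def RelationsRepresented {k : Type u} [Field k] {𝒱 : VarClass k} {ops : CycleOps 𝒱}
    (W : WeilCohomology.{u, v} ops) {I : Type} {X : I → 𝒱.Obj} (fr : ∀ i, X i ⟶ X i) (q : W.K) :
    Prop :=
  ∀ w L, IsPrimitive q L → (∃ y, y ≠ 0 ∧ IsEigProd W fr w L y) →
    ∃ y, IsEigProd W fr w L y ∧ ∃ (n : ℕ), ∃ c ∈ spanCycles W (wordObj X w) n,
      W.tr (wordObj X w) (c * y) ≠ 0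

end Pool.Agent.Y136.UB
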