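import Pool.Agent.Y136.UB.Main

/-!
# Dual eigenvectors
-/

open CategoryTheory AlgebraicGeometry Polynomial

universe u v

namespace Pool.Agent.Y136.UB

open Pool.Agent.H914 Pool.Agent.W534 VarClass Obj WeilCohomology IsWeilSystem

variable {k : Type u} [Field k] {𝒱 : VarClass k} {ops : CycleOps 𝒱}
  {W : WeilCohomology.{u, v} ops}

lemma eq_zero_of_tr {Z : 𝒱.Obj} {u : W.H Z} (hu : u ∈ W.gr Z (2 * Z.dim)) (h0 : W.tr Z u = 0) :
    u = 0 := by
  refine W.nondeg u fun b => ?_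
  refine gr_induction (W.isInternal Z) (p := fun b => W.tr Z (u * b) = 0) ?_ ?_ b
  · intro i a ha
    by_cases hi : i = 0
    · subst hi
      rw [W.gr_zero] at ha
      obtain ⟨c, rfl⟩ := Submodule.mem_span_singleton.mp ha
      rw [mul_smul_comm, mul_one, map_smul, h0, smul_zero]
    · exact W.tr_eq_zero (W.mul_mem hu ha) (by omega)
  · intro a c ha hc
    rw [mul_add, map_add, ha, hc, add_zero]

/-- The operator acts by a scalar on the cohomology of top degree. -/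
lemma exists_scalar {Z : 𝒱.Obj} (f : Module.End W.K (W.H Z))
    (hf : ∀ c ∈ W.gr Z (2 * Z.dim), f c ∈ W.gr Z (2 * Z.dim)) {a : ℕ} {Q : W.K}
    (hQ : ∀ c ∈ W.gr Z (2 * Z.dim), (f ^ a) c = Q ^ a • c) :
    ∃ δ : W.K, δ ^ a = Q ^ a ∧ ∀ c ∈ W.gr Z (2 * Z.dim), f c = δ • c := by
  by_cases h0 : ∀ c ∈ W.gr Z (2 * Z.dim), c = 0
  · exact ⟨Q, rfl, fun c hc => by rw [h0 c hc, map_zero, smul_zero]⟩
  push Not at h0
  obtain ⟨pt, hpt, hpt0⟩ := h0
  have htr : W.tr Z pt ≠ 0 := fun h => hpt0 (eq_zero_of_tr hpt h)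
  have h1 : ∀ c ∈ W.gr Z (2 * Z.dim), c = (W.tr Z c / W.tr Z pt) • pt := by
    intro c hc
    rw [← sub_eq_zero]
    refine eq_zero_of_tr (Submodule.sub_mem _ hc (Submodule.smul_mem _ _ hpt)) ?_
    rw [map_sub, map_smul, smul_eq_mul, div_mul_cancel₀ _ htr, sub_self]
  have h2 : ∀ c ∈ W.gr Z (2 * Z.dim), f c = (W.tr Z (f pt) / W.tr Z pt) • c := by
    intro c hc
    conv_lhs => rw [h1 c hc]
    rw [map_smul, h1 (f pt) (hf pt hpt), smul_smul]
    conv_rhs => rw [h1 c hc]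
    rw [smul_smul]
    congr 1
    rw [map_smul, smul_eq_mul, div_mul_cancel₀ _ htr]
    ring
  obtain ⟨δ, hδ⟩ : ∃ δ : W.K, ∀ c ∈ W.gr Z (2 * Z.dim), f c = δ • c := ⟨_, h2⟩
  refine ⟨δ, ?_, hδ⟩
  have h3 : ∀ n : ℕ, (f ^ n) pt = δ ^ n • pt := by
    intro n
    induction n with
    | zero => simp
    | succ n ih => rw [pow_succ', Module.End.mul_apply, ih, map_smul, hδ pt hpt, smul_smul, pow_succ]
  have h4 := (h3 a).symm.trans (hQ pt hpt)
  by_contra hcon
  have h5 : (δ ^ a - Q ^ a) • pt = 0 := by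
    rw [sub_smul, h4, sub_self]
  exact hpt0 ((smul_eq_zero.mp h5).resolve_left (sub_ne_zero.mpr hcon))

/-- Dual eigenvectors. -/
lemma exists_dual_vec [IsAlgClosed W.K] {Z : 𝒱.Obj} {f : Module.End W.K (W.H Z)}
    (hmul : ∀ x y, f (x * y) = f x * f y) (hdeg : ∀ n, ∀ x ∈ W.gr Z n, f x ∈ W.gr Z n)
    {δ : W.K} (hδ : ∀ c ∈ W.gr Z (2 * Z.dim), f c = δ • c) {n : ℕ} {a : W.K} {y : W.H Z}
    (hy : y ∈ W.gr Z n) (hya : y ∈ f.maxGenEigenspace a) (hy0 : y ≠ 0) :
    ∃ (n' : ℕ) (a' : W.K) (z : W.H Z), n + n' = 2 * Z.dim ∧ a * a' = δ ∧ z ∈ W.gr Z n' ∧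
      z ∈ f.maxGenEigenspace a' ∧ W.tr Z (y * z) ≠ 0 := by
  obtain ⟨b, deg, μ, hb⟩ := exists_gen_basis (F := W.K) (gr := W.gr Z)
    ((W.isInternal Z).submodule_iSup_eq_top) f hdeg
  obtain ⟨j, hj⟩ : ∃ j, W.tr Z (y * b j) ≠ 0 := by
    by_contra hcon
    push Not at hcon
    refine hy0 (W.nondeg y fun x => ?_)
    rw [← b.sum_repr x, Finset.mul_sum, map_sum]
    refine Finset.sum_eq_zero fun j _ => ?_
    rw [mul_smul_comm, map_smul, hcon j, smul_zero]
  have h1 : n + deg j = 2 * Z.dim := by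
    by_contra hcon
    exact hj (W.tr_eq_zero (W.mul_mem hy (hb j).1) hcon)
  have hgr : y * b j ∈ W.gr Z (2 * Z.dim) := by
    rw [← h1]; exact W.mul_mem hy (hb j).1
  have hne : y * b j ≠ 0 := fun h => hj (by rw [h, map_zero])
  refine ⟨deg j, μ j, b j, h1, ?_, (hb j).1, (hb j).2, hj⟩
  by_contra hcon
  have h2 := gen_mul hmul hya (hb j).2
  have h3 : y * b j ∈ f.maxGenEigenspace δ := by
    rw [mem_gen]
    refine ⟨1, ?_⟩
    rw [pow_one, LinearMap.sub_apply, Module.algebraMap_end_apply, hδ _ hgr, sub_self]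
  have h4 := (Module.End.independent_maxGenEigenspace f).pairwiseDisjoint hcon
  exact hne ((Submodule.mem_bot W.K).mp (h4.le_bot ⟨h2, h3⟩))

/-! ### Lists -/

section Lists

variable {I : Type} {F : Type*} [Field F]

/-- The entries are dual to each other. -/
def DualE (dim : I → ℕ) (δ : I → F) (s t : I × ℕ × F) : Prop :=
  s.1 = t.1 ∧ s.2.1 + t.2.1 = 2 * dim s.1 ∧ s.2.2 * t.2.2 = δ s.1

lemma forall₂_append_inv {α β : Type*} {R : α → β → Prop} : ∀ {a b : List α} {c d : List β},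
    List.Forall₂ R (a ++ b) (c ++ d) → a.length = c.length →
      List.Forall₂ R a c ∧ List.Forall₂ R b d
  | [], b, [], d, h, _ => ⟨List.Forall₂.nil, h⟩
  | [], b, c :: cs, d, h, hl => by simp at hl
  | a :: as, b, [], d, h, hl => by simp at hl
  | a :: as, b, c :: cs, d, h, hl => by
    rw [List.cons_append, List.cons_append, List.forall₂_cons] at h
    have h1 := forall₂_append_inv h.2 (by simpa using hl)
    exact ⟨List.Forall₂.cons h.1 h1.1, h1.2⟩

lemma forall₂_sublist {α β : Type*} {R : α → β → Prop} : ∀ {L : List α} {L' K' : List β},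
    List.Forall₂ R L L' → K'.Sublist L' → ∃ K, K.Sublist L ∧ List.Forall₂ R K K' := by
  intro L L' K' h hs
  induction hs generalizing L with
  | slnil => exact ⟨[], List.nil_sublist _, List.Forall₂.nil⟩
  | cons b hs ih =>
    obtain ⟨a, as, hab, h', rfl⟩ := List.forall₂_cons_right_iff.mp h
    obtain ⟨K, hK, hR⟩ := ih h'
    exact ⟨K, hK.cons a, hR⟩
  | cons_cons b hs ih =>
    obtain ⟨a, as, hab, h', rfl⟩ := List.forall₂_cons_right_iff.mp h
    obtain ⟨K, hK, hR⟩ := ih h'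
    exact ⟨a :: K, hK.cons_cons a, List.Forall₂.cons hab hR⟩

variable {dim : I → ℕ} {δ : I → F} {q : F} {R₀ : ℕ}

lemma dual_sum {L L' : List (I × ℕ × F)} (h : List.Forall₂ (DualE dim δ) L L') :
    (L.map fun t => t.2.1).sum + (L'.map fun t => t.2.1).sum =
      2 * (L.map fun t => dim t.1).sum := by
  induction h with
  | nil => rfl
  | cons h _ ih =>
    simp only [List.map_cons, List.sum_cons]
    have := h.2.1
    omega

lemma dual_prod {L L' : List (I × ℕ × F)} (h : List.Forall₂ (DualE dim δ) L L')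
    (hδ : ∀ i, δ i ^ R₀ = q ^ (dim i * R₀)) :
    ((L.map fun t => t.2.2).prod * (L'.map fun t => t.2.2).prod) ^ R₀ =
      q ^ ((L.map fun t => dim t.1).sum * R₀) := by
  induction h with
  | nil => simp
  | @cons s t l l' h _ ih =>
    simp only [List.map_cons, List.prod_cons, List.sum_cons]
    have h1 : s.2.2 * (l.map fun t => t.2.2).prod * (t.2.2 * (l'.map fun t => t.2.2).prod) =
        (s.2.2 * t.2.2) * ((l.map fun t => t.2.2).prod * (l'.map fun t => t.2.2).prod) := by ring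
    rw [h1, mul_pow, ih, h.2.2, hδ, ← pow_add, add_mul]

lemma dual_tate (hq : q ≠ 0) (hR : 0 < R₀) (hδ : ∀ i, δ i ^ R₀ = q ^ (dim i * R₀))
    {L L' : List (I × ℕ × F)} (h : List.Forall₂ (DualE dim δ) L L') (hL : IsTateList q L) :
    IsTateList q L' := by
  obtain ⟨n, R, hR', hn, hL⟩ := hL
  have h1 := dual_sum h
  have h2 := dual_prod h hδ
  set D := (L.map fun t => dim t.1).sum with hD
  obtain ⟨n', hn'⟩ : ∃ n', D = n + n' := ⟨D - n, by omega⟩
  refine ⟨n', R * R₀, Nat.mul_pos hR' hR, by omega, ?_⟩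
  have h3 : ((L.map fun t => t.2.2).prod ^ R) ^ R₀ * (L'.map fun t => t.2.2).prod ^ (R * R₀) =
      q ^ (D * R₀ * R) := by
    rw [pow_mul q, ← h2, mul_pow, mul_pow, ← pow_mul, ← pow_mul, ← pow_mul, mul_comm R₀ R]
  rw [hL, ← pow_mul] at h3
  have h4 : q ^ (D * R₀ * R) = q ^ (n * R * R₀) * q ^ (n' * (R * R₀)) := by
    rw [← pow_add, hn']
    congr 1
    ring
  rw [h4] at h3
  exact mul_left_cancel₀ (pow_ne_zero _ hq) h3

lemma DualE.symm' {L L' : List (I × ℕ × F)} (h : List.Forall₂ (DualE dim δ) L L') :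
    List.Forall₂ (DualE dim δ) L' L := by
  induction h with
  | nil => exact List.Forall₂.nil
  | @cons s t l l' h _ ih =>
    obtain ⟨h1, h2, h3⟩ := h
    exact List.Forall₂.cons ⟨h1.symm, by rw [← h1]; omega, by rw [← h1, mul_comm]; exact h3⟩ ih

lemma dual_primitive (hq : q ≠ 0) (hR : 0 < R₀) (hδ : ∀ i, δ i ^ R₀ = q ^ (dim i * R₀))
    {L L' : List (I × ℕ × F)} (h : List.Forall₂ (DualE dim δ) L L') (hL : IsPrimitive q L) :
    IsPrimitive q L' := by
  obtain ⟨h1, h2, h3⟩ := hL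
  have hlen := h.length_eq
  refine ⟨?_, dual_tate hq hR hδ h h2, ?_⟩
  · intro h0
    rw [h0, List.length_nil] at hlen
    exact h1 (List.length_eq_zero_iff.mp hlen)
  · intro K' hK' hT
    obtain ⟨K, hK, hKK⟩ := forall₂_sublist h hK'
    have h4 := h3 K hK (dual_tate hq hR hδ (DualE.symm' hKK) hT)
    have hlen' := hKK.length_eq
    rcases h4 with h4 | h4
    · left
      rw [h4, List.length_nil] at hlen'
      exact List.length_eq_zero_iff.mp hlen'.symm
    · right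
      rw [h4, hlen] at hlen'
      exact hK'.eq_of_length hlen'.symm

lemma tate_perm {L L' : List (I × ℕ × F)} (h : L.Perm L') (hL : IsTateList q L) :
    IsTateList q L' := by
  obtain ⟨n, R, hR, h1, h2⟩ := hL
  exact ⟨n, R, hR, by rw [← (h.map _).sum_eq, h1], by rw [← (h.map _).prod_eq, h2]⟩

/-- The complement of a part of a list with a relation. -/
lemma tate_compl (hq : q ≠ 0) {K M : List (I × ℕ × F)} (hK : IsTateList q K)
    (hKM : IsTateList q (K ++ M)) : IsTateList q M := by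
  obtain ⟨n, R, hR, h1, h2⟩ := hK
  obtain ⟨n', R', hR', h1', h2'⟩ := hKM
  rw [List.map_append, List.sum_append, h1] at h1'
  rw [List.map_append, List.prod_append, mul_pow] at h2'
  obtain ⟨d, rfl⟩ : ∃ d, n' = n + d := ⟨n' - n, by omega⟩
  refine ⟨d, R * R', Nat.mul_pos hR hR', by omega, ?_⟩
  have h3 : ((K.map fun t => t.2.2).prod ^ R) ^ R' * (M.map fun t => t.2.2).prod ^ (R * R') =
      q ^ ((n + d) * R' * R) := by
    rw [pow_mul q, ← h2', mul_pow, ← pow_mul, ← pow_mul, ← pow_mul, mul_comm R' R]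
  rw [h2, ← pow_mul] at h3
  have h4 : q ^ ((n + d) * R' * R) = q ^ (n * R * R') * q ^ (d * (R * R')) := by
    rw [← pow_add]
    congr 1
    ring
  rw [h4] at h3
  exact mul_left_cancel₀ (pow_ne_zero _ hq) h3

end Lists

end Pool.Agent.Y136.UB
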