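import Pool.Agent.Y136.MG.Geo
import Pool.Agent.Y136.UB.GenEig

/-!
# Products of classes pulled back from the factors
-/

open CategoryTheory AlgebraicGeometry

universe u v

namespace Pool.Agent.Y136.UB

open Pool.Agent.H914 Pool.Agent.W534 VarClass Obj WeilCohomology

variable {k : Type u} [Field k] {𝒱 : VarClass k} {ops : CycleOps 𝒱}
  {W : WeilCohomology.{u, v} ops} {I : Type} {X : I → 𝒱.Obj} {J : I → Type}

/-- A morphism from `Z` to one of the varieties `X i`, with the index of a class on it. -/
structure Fac (X : I → 𝒱.Obj) (J : I → Type) (Z : 𝒱.Obj) where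
  i : I
  π : Z ⟶ X i
  j : J i

namespace Fac

/-- The label of a factor. -/
def lab {Z : 𝒱.Obj} (t : Fac X J Z) : Σ i, J i := ⟨t.i, t.j⟩

/-- The composition with a morphism. -/
def comp {Z Z' : 𝒱.Obj} (φ : Z' ⟶ Z) (t : Fac X J Z) : Fac X J Z' := ⟨t.i, φ ≫ t.π, t.j⟩

end Fac

/-- The product of the classes of a list of factors. -/
noncomputable def pp (b : ∀ i, J i → W.H (X i)) {Z : 𝒱.Obj} (P : List (Fac X J Z)) : W.H Z :=
  (P.map fun t => W.map t.π (b t.i t.j)).prod

lemma pp_nil (b : ∀ i, J i → W.H (X i)) {Z : 𝒱.Obj} : pp b ([] : List (Fac X J Z)) = 1 := rfl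

lemma pp_cons (b : ∀ i, J i → W.H (X i)) {Z : 𝒱.Obj} (t : Fac X J Z) (P : List (Fac X J Z)) :
    pp b (t :: P) = W.map t.π (b t.i t.j) * pp b P := by
  rw [pp, List.map_cons, List.prod_cons]; rfl

lemma pp_append (b : ∀ i, J i → W.H (X i)) {Z : 𝒱.Obj} (P Q : List (Fac X J Z)) :
    pp b (P ++ Q) = pp b P * pp b Q := by
  rw [pp, List.map_append, List.prod_append]; rfl

lemma pp_comp (b : ∀ i, J i → W.H (X i)) {Z Z' : 𝒱.Obj} (φ : Z' ⟶ Z) (P : List (Fac X J Z)) :
    W.map φ (pp b P) = pp b (P.map (Fac.comp φ)) := by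
  induction P with
  | nil => rw [List.map_nil, pp_nil, pp_nil, map_one]
  | cons t P ih =>
    rw [List.map_cons, pp_cons, pp_cons, map_mul, ih, ← W.map_comp]
    rfl

/-- The operators induced by multiplicative operators act on the pull-backs under the canonical
projections of a product. -/
def Canon (W : WeilCohomology.{u, v} ops) (w : FreeMagma I) (t : Fac X J (wordObj X w)) : Prop :=
  ∀ T : ∀ i, Module.End W.K (W.H (X i)), (∀ i, T i 1 = 1) → ∀ x,
    wordOp W X T w (W.map t.π x) = W.map t.π (T t.i x)

lemma wordOp_map_one {T : ∀ i, Module.End W.K (W.H (X i))} (hT : ∀ i, T i 1 = 1)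
    (w : FreeMagma I) : wordOp W X T w 1 = 1 := by
  induction w with
  | ih1 i => exact hT i
  | ih2 v w hv hw =>
    have h1 : extOp W (wordOp W X T v) (wordOp W X T w)
        (W.map (fst (wordObj X v) (wordObj X w)) 1 * W.map (snd (wordObj X v) (wordObj X w)) 1) =
        1 := by
      rw [extOp_tmul, hv, hw, map_one, map_one, one_mul]
    rw [map_one, map_one, one_mul] at h1
    exact h1

lemma canon_fst {v w : FreeMagma I} {t : Fac X J (wordObj X v)} (ht : Canon W v t) :
    Canon W (.mul v w) (t.comp (fst (wordObj X v) (wordObj X w)) :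
      Fac X J (wordObj X (.mul v w))) := by
  intro T hT
  have key : ∀ x : W.H (X t.i), extOp W (wordOp W X T v) (wordOp W X T w)
      (W.map (fst (wordObj X v) (wordObj X w) ≫ t.π) x) =
        W.map (fst (wordObj X v) (wordObj X w) ≫ t.π) (T t.i x) := by
    intro x
    have h1 : W.map (fst (wordObj X v) (wordObj X w) ≫ t.π) x =
        W.map (fst (wordObj X v) (wordObj X w)) (W.map t.π x) *
          W.map (snd (wordObj X v) (wordObj X w)) 1 := by
      rw [W.map_comp, map_one, mul_one]
    rw [h1, extOp_tmul, ht T hT, wordOp_map_one hT, map_one, mul_one, W.map_comp]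
  exact key

lemma canon_snd {v w : FreeMagma I} {t : Fac X J (wordObj X w)} (ht : Canon W w t) :
    Canon W (.mul v w) (t.comp (snd (wordObj X v) (wordObj X w)) :
      Fac X J (wordObj X (.mul v w))) := by
  intro T hT
  have key : ∀ x : W.H (X t.i), extOp W (wordOp W X T v) (wordOp W X T w)
      (W.map (snd (wordObj X v) (wordObj X w) ≫ t.π) x) =
        W.map (snd (wordObj X v) (wordObj X w) ≫ t.π) (T t.i x) := by
    intro x
    have h1 : W.map (snd (wordObj X v) (wordObj X w) ≫ t.π) x =
        W.map (fst (wordObj X v) (wordObj X w)) 1 *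
          W.map (snd (wordObj X v) (wordObj X w)) (W.map t.π x) := by
      rw [W.map_comp, map_one, one_mul]
    rw [h1, extOp_tmul, ht T hT, wordOp_map_one hT, map_one, one_mul, W.map_comp]
  exact key

lemma canon_of (i : I) (j : J i) : Canon W (.of i) (⟨i, 𝟙 (X i), j⟩ : Fac X J (X i)) := by
  intro T _ x
  show T i (W.map (𝟙 (X i)) x) = W.map (𝟙 (X i)) (T i x)
  rw [W.map_id, W.map_id]

/-- The cohomology of a product is spanned by the products of classes pulled back from the
factors. -/
theorem span_pp {b : ∀ i, J i → W.H (X i)} (hb : ∀ i, Submodule.span W.K (Set.range (b i)) = ⊤)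
    (w : FreeMagma I) : Submodule.span W.K {x | ∃ P : List (Fac X J (wordObj X w)),
      (∀ t ∈ P, Canon W w t) ∧ pp b P = x} = ⊤ := by
  induction w with
  | ih1 i =>
    rw [eq_top_iff]
    have h0 : (⊤ : Submodule W.K (W.H (X i))) ≤ Submodule.span W.K
        {x | ∃ P : List (Fac X J (X i)), (∀ t ∈ P, Canon W (.of i) t) ∧ pp b P = x} := by
      rw [← hb i, Submodule.span_le]
      rintro _ ⟨j, rfl⟩
      refine Submodule.subset_span ⟨[⟨i, 𝟙 (X i), j⟩], ?_, ?_⟩
      · intro t ht
        rw [List.mem_singleton] at ht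
        subst ht
        exact canon_of i j
      · rw [pp_cons, pp_nil, mul_one, W.map_id]
    exact h0
  | ih2 v w hv hw =>
    rw [eq_top_iff]
    let S : Set (W.H ((wordObj X v).prod (wordObj X w))) :=
      {x | ∃ P : List (Fac X J ((wordObj X v).prod (wordObj X w))),
        (∀ t ∈ P, Canon W (.mul v w) t) ∧ pp b P = x}
    have key : ∀ x y, W.map (fst (wordObj X v) (wordObj X w)) x *
        W.map (snd (wordObj X v) (wordObj X w)) y ∈ Submodule.span W.K S := by
      intro x y
      have hx : x ∈ Submodule.span W.K {x | ∃ P : List (Fac X J (wordObj X v)),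
        (∀ t ∈ P, Canon W v t) ∧ pp b P = x} := by rw [hv]; exact Submodule.mem_top
      have hy : y ∈ Submodule.span W.K {x | ∃ P : List (Fac X J (wordObj X w)),
        (∀ t ∈ P, Canon W w t) ∧ pp b P = x} := by rw [hw]; exact Submodule.mem_top
      induction hx using Submodule.span_induction with
      | mem x hx =>
        obtain ⟨P, hP, rfl⟩ := hx
        induction hy using Submodule.span_induction with
        | mem y hy =>
          obtain ⟨Q, hQ, rfl⟩ := hy
          rw [pp_comp, pp_comp, ← pp_append]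
          refine Submodule.subset_span ⟨_, ?_, rfl⟩
          intro t ht
          rw [List.mem_append, List.mem_map, List.mem_map] at ht
          rcases ht with ⟨t', ht', rfl⟩ | ⟨t', ht', rfl⟩
          · exact canon_fst (hP t' ht')
          · exact canon_snd (hQ t' ht')
        | zero => rw [map_zero, mul_zero]; exact Submodule.zero_mem _
        | add y y' _ _ h h' => rw [map_add, mul_add]; exact Submodule.add_mem _ h h'
        | smul c y _ h => rw [map_smul, mul_smul_comm]; exact Submodule.smul_mem _ _ h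
      | zero => rw [map_zero, zero_mul]; exact Submodule.zero_mem _
      | add x x' _ _ h h' => rw [map_add, add_mul]; exact Submodule.add_mem _ h h'
      | smul c x _ h => rw [map_smul, smul_mul_assoc]; exact Submodule.smul_mem _ _ h
    intro z _
    have h1 : z ∈ Submodule.span W.K S := by
      refine W.kunneth_induction (p := fun z => z ∈ Submodule.span W.K S) ?_ ?_ z
      · intro a c ha hc; exact Submodule.add_mem _ ha hc
      · intro i j a _ c _; exact key a c
    exact h1

/-- Every list of factors is a pull-back from a product with as many factors as the list. -/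
theorem exists_rep {Z : 𝒱.Obj} (P : List (Fac X J Z)) (hP : P ≠ []) :
    ∃ (w : FreeMagma I) (φ : Z ⟶ wordObj X w) (Q : List (Fac X J (wordObj X w))),
      w.length = P.length ∧ (∀ t ∈ Q, Canon W w t) ∧ Q.map (Fac.comp φ) = P := by
  induction P with
  | nil => exact absurd rfl hP
  | cons a P ih =>
    by_cases hP' : P = []
    · subst hP'
      refine ⟨.of a.i, a.π, [⟨a.i, 𝟙 (X a.i), a.j⟩], rfl, ?_, ?_⟩
      · intro t ht
        rw [List.mem_singleton] at ht
        subst ht
        exact canon_of a.i a.j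
      · have h1 : (Fac.comp a.π (⟨a.i, 𝟙 (X a.i), a.j⟩ : Fac X J (X a.i)) : Fac X J Z) = a := by
          show (⟨a.i, a.π ≫ 𝟙 (X a.i), a.j⟩ : Fac X J Z) = a
          rw [Category.comp_id]
        exact congrArg (fun t => [t]) h1
    · obtain ⟨w, φ, Q, hw, hQ, hφ⟩ := ih hP'
      refine ⟨.mul (.of a.i) w, Obj.lift a.π φ,
        (⟨a.i, fst (X a.i) (wordObj X w), a.j⟩ :
          Fac X J ((X a.i).prod (wordObj X w))) ::
            Q.map (Fac.comp (snd (X a.i) (wordObj X w))), ?_, ?_, ?_⟩
      · show (FreeMagma.of a.i).length + w.length = (a :: P).length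
        rw [hw, List.length_cons]
        show 1 + P.length = P.length + 1
        omega
      · intro t ht
        rcases List.mem_cons.mp ht with rfl | ht
        · have h1 := canon_fst (v := .of a.i) (w := w) (canon_of (W := W) (X := X) (J := J) a.i a.j)
          have h2 : (Fac.comp (fst (wordObj X (.of a.i)) (wordObj X w))
              (⟨a.i, 𝟙 (X a.i), a.j⟩ : Fac X J (X a.i)) :
              Fac X J ((X a.i).prod (wordObj X w))) =
              ⟨a.i, fst (X a.i) (wordObj X w), a.j⟩ := by
            show (⟨a.i, fst (X a.i) (wordObj X w) ≫ 𝟙 (X a.i), a.j⟩ :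
              Fac X J ((X a.i).prod (wordObj X w))) = _
            rw [Category.comp_id]
          rw [← h2]
          exact h1
        · obtain ⟨t', ht', rfl⟩ := List.mem_map.mp ht
          exact canon_snd (v := .of a.i) (hQ t' ht')
      · have h1 : (Q.map (Fac.comp (snd (X a.i) (wordObj X w)))).map
            (Fac.comp (Obj.lift a.π φ)) = P := by
          rw [List.map_map, ← hφ]
          refine List.map_congr_left fun t _ => ?_
          show (⟨t.i, Obj.lift a.π φ ≫ snd (X a.i) (wordObj X w) ≫ t.π, t.j⟩ : Fac X J Z) =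
            ⟨t.i, φ ≫ t.π, t.j⟩
          rw [Obj.lift_snd_assoc]
        have h2 : Fac.comp (Obj.lift a.π φ)
            (⟨a.i, fst (X a.i) (wordObj X w), a.j⟩ : Fac X J ((X a.i).prod (wordObj X w))) =
            a := by
          show (⟨a.i, Obj.lift a.π φ ≫ fst (X a.i) (wordObj X w), a.j⟩ : Fac X J Z) = a
          rw [Obj.lift_fst]
        have h3 : ((⟨a.i, fst (X a.i) (wordObj X w), a.j⟩ :
            Fac X J ((X a.i).prod (wordObj X w))) ::
              Q.map (Fac.comp (snd (X a.i) (wordObj X w)))).map (Fac.comp (Obj.lift a.π φ)) =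
            a :: P := by
          rw [List.map_cons, h1, h2]
        exact h3

/-! ### Degrees and permutations -/

section Deg

variable {b : ∀ i, J i → W.H (X i)} {deg : (Σ i, J i) → ℕ}

lemma pp_gr (hb : ∀ i j, b i j ∈ W.gr (X i) (deg ⟨i, j⟩)) {Z : 𝒱.Obj} (P : List (Fac X J Z)) :
    pp b P ∈ W.gr Z (P.map fun t => deg t.lab).sum := by
  induction P with
  | nil => exact W.one_mem Z
  | cons t P ih =>
    rw [pp_cons, List.map_cons, List.sum_cons]
    exact W.mul_mem (W.map_mem t.π (hb t.i t.j)) ih

lemma pp_perm (hb : ∀ i j, b i j ∈ W.gr (X i) (deg ⟨i, j⟩)) {Z : 𝒱.Obj}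
    {P Q : List (Fac X J Z)} (h : P.Perm Q) : ∃ c : W.K, pp b P = c • pp b Q := by
  induction h with
  | nil => exact ⟨1, by rw [one_smul]⟩
  | cons t _ ih =>
    obtain ⟨c, hc⟩ := ih
    exact ⟨c, by rw [pp_cons, pp_cons, hc, mul_smul_comm]⟩
  | swap s t P =>
    refine ⟨(-1) ^ (deg ⟨t.i, t.j⟩ * deg ⟨s.i, s.j⟩), ?_⟩
    rw [pp_cons, pp_cons, pp_cons, pp_cons, ← mul_assoc, ← mul_assoc,
      W.comm (W.map_mem t.π (hb t.i t.j)) (W.map_mem s.π (hb s.i s.j)), smul_mul_assoc]
  | trans _ _ ih ih' =>
    obtain ⟨c, hc⟩ := ih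
    obtain ⟨c', hc'⟩ := ih'
    exact ⟨c * c', by rw [hc, hc', smul_smul]⟩

end Deg

/-! ### Multiplicities -/

section Cnt

open Classical in
/-- The multiplicities of the labels in a list of factors. -/
noncomputable def cnt {Z : 𝒱.Obj} : List (Fac X J Z) → (Σ i, J i) → ℕ
  | [] => 0
  | t :: P => Pi.single t.lab 1 + cnt P

lemma cnt_comp {Z Z' : 𝒱.Obj} (φ : Z' ⟶ Z) (P : List (Fac X J Z)) :
    cnt (P.map (Fac.comp φ)) = cnt P := by
  induction P with
  | nil => rfl
  | cons t P ih =>
    rw [List.map_cons, cnt, cnt, ih]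
    rfl

lemma cnt_split {Z : 𝒱.Obj} (P : List (Fac X J Z)) : ∀ f g : (Σ i, J i) → ℕ, f + g = cnt P →
    ∃ P₁ P₂ : List (Fac X J Z), P.Perm (P₁ ++ P₂) ∧ cnt P₁ = f ∧ cnt P₂ = g := by
  classical
  induction P with
  | nil =>
    intro f g h
    have h1 : f = 0 ∧ g = 0 := by
      constructor
      · funext l
        have := congrFun h l
        have h2 : f l + g l = 0 := this
        show f l = 0
        omega
      · funext l
        have := congrFun h l
        have h2 : f l + g l = 0 := this
        show g l = 0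
        omega
    exact ⟨[], [], List.Perm.refl _, h1.1.symm, h1.2.symm⟩
  | cons t P ih =>
    intro f g h
    have h0 : f t.lab + g t.lab = 1 + cnt P t.lab := by
      have := congrFun h t.lab
      simp only [cnt, Pi.add_apply] at this
      rw [this]
      congr 1
      exact Pi.single_eq_same _ _
    have hs : ∀ f : (Σ i, J i) → ℕ, 0 < f t.lab →
        ∃ f' : (Σ i, J i) → ℕ, f = Pi.single t.lab 1 + f' := by
      intro f hf
      refine ⟨fun l => f l - (Pi.single t.lab 1 : (Σ i, J i) → ℕ) l, ?_⟩
      funext l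
      show f l = (Pi.single t.lab 1 : (Σ i, J i) → ℕ) l +
        (f l - (Pi.single t.lab 1 : (Σ i, J i) → ℕ) l)
      by_cases hl : l = t.lab
      · subst hl
        rw [Pi.single_eq_same]
        omega
      · rw [Pi.single_eq_of_ne hl]
        omega
    have hcnt : cnt (t :: P) = Pi.single t.lab 1 + cnt P := by
      rw [cnt]
    by_cases hf : 0 < f t.lab
    · obtain ⟨f', rfl⟩ := hs f hf
      have h1 : f' + g = cnt P := by
        rw [hcnt, add_assoc] at h
        exact add_left_cancel h
      obtain ⟨P₁, P₂, hP, h2, h3⟩ := ih f' g h1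
      refine ⟨t :: P₁, P₂, ?_, ?_, h3⟩
      · rw [List.cons_append]; exact hP.cons t
      · rw [cnt, h2]
    · have hg : 0 < g t.lab := by omega
      obtain ⟨g', rfl⟩ := hs g hg
      have h1 : f + g' = cnt P := by
        rw [hcnt, add_left_comm] at h
        exact add_left_cancel h
      obtain ⟨P₁, P₂, hP, h2, h3⟩ := ih f g' h1
      refine ⟨P₁, t :: P₂, ?_, h2, ?_⟩
      · exact (hP.cons t).trans List.perm_middle.symm
      · rw [cnt, h3]

variable [Fintype (Σ i, J i)]

lemma sum_cnt_mul {R : Type*} [CommSemiring R] {Z : 𝒱.Obj} (P : List (Fac X J Z))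
    (g : (Σ i, J i) → R) : ∑ l, (cnt P l : R) * g l = (P.map fun t => g t.lab).sum := by
  classical
  induction P with
  | nil => simp [cnt]
  | cons t P ih =>
    rw [List.map_cons, List.sum_cons, ← ih]
    simp only [cnt, Pi.add_apply, Nat.cast_add, add_mul, Finset.sum_add_distrib]
    congr 1
    rw [Finset.sum_eq_single t.lab]
    · rw [Pi.single_eq_same, Nat.cast_one, one_mul]
    · intro l _ hl
      rw [Pi.single_eq_of_ne hl, Nat.cast_zero, zero_mul]
    · intro h; exact absurd (Finset.mem_univ _) h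

lemma sum_cnt {Z : 𝒱.Obj} (P : List (Fac X J Z)) : ∑ l, cnt P l = P.length := by
  have h1 := sum_cnt_mul P (fun _ => (1 : ℕ))
  simpa using h1

lemma sum_cnt_deg {Z : 𝒱.Obj} (P : List (Fac X J Z)) (deg : (Σ i, J i) → ℕ) :
    ∑ l, cnt P l * deg l = (P.map fun t => deg t.lab).sum := by
  have h1 := sum_cnt_mul P deg
  simpa using h1

lemma prod_cnt {R : Type*} [CommMonoid R] {Z : 𝒱.Obj} (P : List (Fac X J Z))
    (g : (Σ i, J i) → R) : ∏ l, g l ^ cnt P l = (P.map fun t => g t.lab).prod := by
  classical
  induction P with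
  | nil => simp [cnt]
  | cons t P ih =>
    rw [List.map_cons, List.prod_cons, ← ih]
    simp only [cnt, Pi.add_apply, pow_add, Finset.prod_mul_distrib]
    congr 1
    rw [Finset.prod_eq_single t.lab]
    · rw [Pi.single_eq_same, pow_one]
    · intro l _ hl
      rw [Pi.single_eq_of_ne hl, pow_zero]
    · intro h; exact absurd (Finset.mem_univ _) h

end Cnt

end Pool.Agent.Y136.UB
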