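import Pool.Agent.Y136.UB.Comb
import Pool.Agent.Y136.UB.Pure
import Pool.Agent.Y136.MG.Weil

/-!
# Universal bounds for the Tate conjecture on products
-/

open CategoryTheory AlgebraicGeometry Polynomial

universe u v

namespace Pool.Agent.Y136.UB

open Pool.Agent.H914 Pool.Agent.W534 VarClass Obj WeilCohomology IsWeilSystem

variable {k : Type u} [Field k] {𝒱 : VarClass k} {ops : CycleOps 𝒱}
  {W : WeilCohomology.{u, v} ops} {I : Type} {X : I → 𝒱.Obj} {J : I → Type}

lemma IsClosedSystem.one {A : ∀ Z : 𝒱.Obj, ℕ → Submodule W.K (W.H Z)} (hA : IsClosedSystem W A)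
    (Z : 𝒱.Obj) : (1 : W.H Z) ∈ A Z 0 := (hA.subalgebra Z).1

lemma IsClosedSystem.mul {A : ∀ Z : 𝒱.Obj, ℕ → Submodule W.K (W.H Z)} (hA : IsClosedSystem W A)
    (Z : 𝒱.Obj) (m n : ℕ) (x y : W.H Z) (hx : x ∈ A Z m) (hy : y ∈ A Z n) :
    x * y ∈ A Z (m + n) := (hA.subalgebra Z).2 m n x y hx hy

lemma IsClosedSystem.pull {A : ∀ Z : 𝒱.Obj, ℕ → Submodule W.K (W.H Z)}
    (hA : IsClosedSystem W A) (Y Z : 𝒱.Obj) (f : Y ⟶ Z) (n : ℕ) (x : W.H Z) (hx : x ∈ A Z n) :
    W.map f x ∈ A Y n := hA.pull_mem Y Z f n x hx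

/-! ### Numbers -/

section Num

variable {L : Type*} [Fintype L]

lemma gam_nat (q : ℕ) (deg : L → ℕ) (α : L → ℂ) (e : L → ℕ) :
    gam q deg α (fun l => (e l : ℤ)) = (∏ l, α l ^ e l) ^ 2 / (q : ℂ) ^ (∑ l, e l * deg l) := by
  unfold gam
  rw [← Finset.prod_pow, ← Finset.prod_pow_eq_pow_sum, ← Finset.prod_div_distrib]
  refine Finset.prod_congr rfl fun l _ => ?_
  rw [zpow_natCast, div_pow, ← pow_mul, ← pow_mul, ← pow_mul, mul_comm 2, mul_comm (deg l)]

/-- Tate vectors: the multiplicities of products of eigenvalues which are, up to roots of unity,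
powers of `q`. -/
def TV (D q : ℕ) (deg : L → ℕ) (α : L → ℂ) (e : L → ℕ) : Prop :=
  (∀ c ∈ slopes D q deg α, ∑ l, (e l : ℤ) * c l = 0) ∧ Even (∑ l, e l * deg l)

lemma exists_root {n₀ D q : ℕ} {deg : L → ℕ} {α : L → ℂ} (h : IsWeilSystem n₀ D q deg α)
    {e : L → ℕ} (he : TV D q deg α e) {n : ℕ} (hn : ∑ l, e l * deg l = 2 * n) :
    ∃ s : ℕ, 0 < s ∧ (∏ l, α l ^ e l) ^ s = (q : ℂ) ^ (n * s) := by
  obtain ⟨s, hs, h1⟩ := h.exists_pow_eq_one _ he.1
  refine ⟨2 * s, by omega, ?_⟩
  rw [gam_nat, hn, div_pow, div_eq_one_iff_eq (pow_ne_zero _ (pow_ne_zero _ h.q_ne)),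
    ← pow_mul, ← pow_mul] at h1
  rw [h1]
  congr 1
  ring

lemma tv_of_root {n₀ D q : ℕ} {deg : L → ℕ} {α : L → ℂ} (h : IsWeilSystem n₀ D q deg α)
    {e : L → ℕ} {n : ℕ} (hn : ∑ l, e l * deg l = 2 * n) {s : ℕ} (hs : 0 < s)
    (hα : (∏ l, α l ^ e l) ^ s = (q : ℂ) ^ (n * s)) : TV D q deg α e := by
  refine ⟨h.sum_eq_zero _ ⟨s, hs, ?_⟩, by rw [hn]; exact even_two_mul n⟩
  rw [gam_nat, hn, div_pow, div_eq_one_iff_eq (pow_ne_zero _ (pow_ne_zero _ h.q_ne)),
    ← pow_mul, mul_comm 2 s, pow_mul, hα, ← pow_mul, ← pow_mul]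
  congr 1
  ring

end Num

/-! ### Generalised eigenvectors -/

section Gen

variable {p : ℕ} {Φ : FrobSystem W p} {fr : ∀ i, X i ⟶ X i} {m : ℕ}
  {b : ∀ i, J i → W.H (X i)} {deg : (Σ i, J i) → ℕ} {μ : (Σ i, J i) → W.K}

/-- Products of generalised eigenvectors pulled back from the factors are generalised
eigenvectors. -/
lemma pp_gen (hμ : ∀ i j, b i j ∈ Module.End.maxGenEigenspace (W.map (fr i)).toLinearMap
    (μ ⟨i, j⟩)) {w : FreeMagma I} {A R : ℕ}
    (hA : (W.map (Φ.Fr (wordObj X w))).toLinearMap ^ A =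
      wordOp W X (fun i => (W.map (fr i)).toLinearMap ^ R) w)
    (P : List (Fac X J (wordObj X w))) (hP : ∀ t ∈ P, Canon W w t) :
    pp b P ∈ Module.End.maxGenEigenspace ((W.map (Φ.Fr (wordObj X w))).toLinearMap ^ A)
      ((P.map fun t => μ t.lab).prod ^ R) := by
  have hmul : ∀ x y, ((W.map (Φ.Fr (wordObj X w))).toLinearMap ^ A) (x * y) =
      ((W.map (Φ.Fr (wordObj X w))).toLinearMap ^ A) x *
        ((W.map (Φ.Fr (wordObj X w))).toLinearMap ^ A) y := pow_mul_apply _ _
  have hone : ∀ (Z : 𝒱.Obj) (f : Z ⟶ Z) (n : ℕ), ((W.map f).toLinearMap ^ n) 1 = 1 := by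
    intro Z f n
    rw [← map_iter_eq_pow]
    exact map_one (W.map (W534.iter f n))
  induction P with
  | nil =>
    rw [List.map_nil, List.prod_nil, one_pow, pp_nil, mem_gen]
    refine ⟨1, ?_⟩
    rw [pow_one, LinearMap.sub_apply, Module.algebraMap_end_apply, one_smul, hone, sub_self]
  | cons t P ih =>
    rw [List.map_cons, List.prod_cons, mul_pow, pp_cons]
    refine gen_mul hmul ?_ (ih fun t' ht' => hP t' (List.mem_cons_of_mem _ ht'))
    have h1 := gen_pow (hμ t.i t.j) R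
    refine gen_map (W.map t.π).toLinearMap (f := (W.map (fr t.i)).toLinearMap ^ R) ?_ h1
    intro x
    rw [hA]
    exact hP t List.mem_cons_self (fun i => (W.map (fr i)).toLinearMap ^ R)
      (fun i => hone _ _ _) x

variable [Fintype (Σ i, J i)] {σ : W.K ≃+* ℂ} {n₀ D : ℕ}

lemma prod_sigma {Z : 𝒱.Obj} (P : List (Fac X J Z)) :
    σ (P.map fun t => μ t.lab).prod = ∏ l, σ (μ l) ^ cnt P l := by
  rw [prod_cnt P (fun l => σ (μ l)), map_list_prod, List.map_map]
  rfl

/-- Products with Tate vectors are Tate classes. -/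
lemma pp_mem_genTate (hm : 0 < m) (hfr : ∀ i, ∃ a c : ℕ, 0 < a ∧ 0 < c ∧
      a * m = c * Φ.e (X i) ∧ W534.iter (fr i) a = W534.iter (Φ.Fr (X i)) c)
    (hμ : ∀ i j, b i j ∈ Module.End.maxGenEigenspace (W.map (fr i)).toLinearMap (μ ⟨i, j⟩))
    (hdeg : ∀ i j, b i j ∈ W.gr (X i) (deg ⟨i, j⟩))
    (hα : IsWeilSystem n₀ D (p ^ m) deg (fun l => σ (μ l))) {w : FreeMagma I}
    (P : List (Fac X J (wordObj X w))) (hP : ∀ t ∈ P, Canon W w t)
    (hTV : TV D (p ^ m) deg (fun l => σ (μ l)) (cnt P)) {n : ℕ}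
    (hn : ∑ l, cnt P l * deg l = 2 * n) :
    ∃ s, 0 < s ∧ pp b P ∈ genTate Φ (wordObj X w) s n := by
  obtain ⟨A, R, hA, hR, he, h⟩ := frob_word hm hfr w
  obtain ⟨s, hs, h1⟩ := exists_root hα hTV hn
  have h2 : (P.map fun t => μ t.lab).prod ^ s = ((p : W.K) ^ m) ^ (n * s) := by
    apply σ.injective
    rw [map_pow, prod_sigma, h1, map_pow, map_pow, map_natCast]
    push_cast
    rfl
  refine ⟨A * s, Nat.mul_pos hA hs, ?_, ?_⟩
  · have h3 := gen_pow (pp_gen hμ h P hP) s
    rw [← pow_mul] at h3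
    have h4 : ((P.map fun t => μ t.lab).prod ^ R) ^ s =
        (card Φ (wordObj X w) (A * s) : W.K) ^ n := by
      rw [← pow_mul, mul_comm R s, pow_mul, h2, ← pow_mul, ← pow_mul]
      unfold card
      push_cast
      rw [← pow_mul]
      congr 1
      calc m * (n * s * R) = (R * m) * (n * s) := by ring
        _ = (A * Φ.e (wordObj X w)) * (n * s) := by rw [he]
        _ = _ := by ring
    rw [h4] at h3
    show pp b P ∈ Module.End.maxGenEigenspace
      (W.map (W534.iter (Φ.Fr (wordObj X w)) (A * s))).toLinearMap _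
    rw [map_iter_eq_pow]
    exact h3
  · have h3 := pp_gr (b := b) (deg := deg) hdeg P
    rw [← sum_cnt_deg P deg, hn] at h3
    exact h3

/-- Tate classes are combinations of products with Tate vectors. -/
lemma genTate_le_span (hm : 0 < m) (hfr : ∀ i, ∃ a c : ℕ, 0 < a ∧ 0 < c ∧
      a * m = c * Φ.e (X i) ∧ W534.iter (fr i) a = W534.iter (Φ.Fr (X i)) c)
    (hb : ∀ i, Submodule.span W.K (Set.range (b i)) = ⊤)
    (hμ : ∀ i j, b i j ∈ Module.End.maxGenEigenspace (W.map (fr i)).toLinearMap (μ ⟨i, j⟩))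
    (hdeg : ∀ i j, b i j ∈ W.gr (X i) (deg ⟨i, j⟩))
    (hα : IsWeilSystem n₀ D (p ^ m) deg (fun l => σ (μ l))) (w : FreeMagma I) {s : ℕ}
    (hs : 0 < s) (n : ℕ) :
    genTate Φ (wordObj X w) s n ≤ Submodule.span W.K {x | ∃ P : List (Fac X J (wordObj X w)),
      ∑ l, cnt P l * deg l = 2 * n ∧ TV D (p ^ m) deg (fun l => σ (μ l)) (cnt P) ∧
        pp b P = x} := by
  obtain ⟨A, R, hA, hR, he, h⟩ := frob_word hm hfr w
  intro x hx
  obtain ⟨hx1, hx2⟩ := hx
  set F := (W.map (Φ.Fr (wordObj X w))).toLinearMap with hF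
  -- homogeneous elements
  let S : Set (W.H (wordObj X w)) := {x | ∃ P : List (Fac X J (wordObj X w)),
    (∀ t ∈ P, Canon W w t) ∧ pp b P = x}
  have hxS : x ∈ Submodule.span W.K S := by
    have h0 : Submodule.span W.K S = ⊤ := span_pp hb w
    rw [h0]; exact Submodule.mem_top
  have h1 : x ∈ Submodule.span W.K (S ∩ W.gr (wordObj X w) (2 * n)) := by
    refine mem_span_inter (W.isInternal (wordObj X w)).submodule_iSupIndep ?_ hxS hx2
    rintro y ⟨P, hP, rfl⟩
    exact ⟨_, pp_gr hdeg P⟩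
  have hx1' : x ∈ Module.End.maxGenEigenspace (F ^ (A * s))
      (((card Φ (wordObj X w) s : W.K) ^ n) ^ A) := by
    have h2 : x ∈ Module.End.maxGenEigenspace (F ^ s) ((card Φ (wordObj X w) s : W.K) ^ n) := by
      rw [hF, ← map_iter_eq_pow]
      exact hx1
    have h3 := gen_pow h2 A
    rwa [← pow_mul, mul_comm s A] at h3
  have hgen : ∀ P : List (Fac X J (wordObj X w)), (∀ t ∈ P, Canon W w t) →
      pp b P ∈ Module.End.maxGenEigenspace (F ^ (A * s))
        (((P.map fun t => μ t.lab).prod ^ R) ^ s) := by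
    intro P hP
    have h2 := gen_pow (pp_gen hμ h P hP) s
    rwa [← pow_mul] at h2
  have h2 : x ∈ Submodule.span W.K ((S ∩ W.gr (wordObj X w) (2 * n)) ∩
      (Module.End.maxGenEigenspace (F ^ (A * s)) (((card Φ (wordObj X w) s : W.K) ^ n) ^ A) :
        Set (W.H (wordObj X w)))) := by
    refine mem_span_inter (Module.End.independent_maxGenEigenspace (F ^ (A * s))) ?_ h1 hx1'
    rintro y ⟨⟨P, hP, rfl⟩, -⟩
    exact ⟨_, hgen P hP⟩
  refine (Submodule.span_le.mpr ?_ : _ ≤ _) h2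
  rintro y ⟨⟨⟨P, hP, rfl⟩, hy⟩, hy'⟩
  by_cases h0 : pp b P = 0
  · rw [h0]; exact Submodule.zero_mem _
  · have hd : ∑ l, cnt P l * deg l = 2 * n := by
      by_contra hcon
      have h3 := pp_gr (b := b) (deg := deg) hdeg P
      rw [← sum_cnt_deg P deg] at h3
      have h4 := (W.isInternal (wordObj X w)).submodule_iSupIndep.pairwiseDisjoint
        (show ∑ l, cnt P l * deg l ≠ 2 * n from hcon)
      exact h0 ((Submodule.mem_bot W.K).mp (h4.le_bot ⟨h3, hy⟩))
    have hev : ((P.map fun t => μ t.lab).prod ^ R) ^ s =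
        ((card Φ (wordObj X w) s : W.K) ^ n) ^ A := by
      by_contra hcon
      have h4 := (Module.End.independent_maxGenEigenspace (F ^ (A * s))).pairwiseDisjoint hcon
      exact h0 ((Submodule.mem_bot W.K).mp (h4.le_bot ⟨hgen P hP, hy'⟩))
    refine Submodule.subset_span ⟨P, hd, ?_, rfl⟩
    refine tv_of_root hα hd (s := R * s) (Nat.mul_pos hR hs) ?_
    rw [← prod_sigma, ← map_pow, pow_mul, hev]
    unfold card
    rw [map_pow, map_pow, map_natCast]
    push_cast
    rw [← pow_mul, ← pow_mul, ← pow_mul]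
    congr 1
    calc Φ.e (wordObj X w) * s * (n * A) = (A * Φ.e (wordObj X w)) * (n * s) := by ring
      _ = (R * m) * (n * s) := by rw [he]
      _ = _ := by ring

/-! ### Induction -/

variable {A : ∀ Z : 𝒱.Obj, ℕ → Submodule W.K (W.H Z)}

/-- Products with Tate vectors are in the closed system. -/
theorem pp_mem (hm : 0 < m) (hfr : ∀ i, ∃ a c : ℕ, 0 < a ∧ 0 < c ∧
      a * m = c * Φ.e (X i) ∧ W534.iter (fr i) a = W534.iter (Φ.Fr (X i)) c)
    (hμ : ∀ i j, b i j ∈ Module.End.maxGenEigenspace (W.map (fr i)).toLinearMap (μ ⟨i, j⟩))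
    (hdeg : ∀ i j, b i j ∈ W.gr (X i) (deg ⟨i, j⟩))
    (hα : IsWeilSystem n₀ D (p ^ m) deg (fun l => σ (μ l))) (hA : IsClosedSystem W A)
    {r C : ℕ} (hr : Fintype.card (Σ i, J i) ≤ r) (hC : ∀ l, D * deg l ≤ C)
    (hT : ∀ w : FreeMagma I, w.length ≤ bound r C → TateClassesIn Φ A (wordObj X w)) (N : ℕ) :
    ∀ (Z : 𝒱.Obj) (P : List (Fac X J Z)), P.length ≤ N →
      TV D (p ^ m) deg (fun l => σ (μ l)) (cnt P) →
      ∀ n, ∑ l, cnt P l * deg l = 2 * n → pp b P ∈ A Z n := by
  induction N with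
  | zero =>
    intro Z P hP _ n hn
    have h0 : P = [] := List.length_eq_zero_iff.mp (by omega)
    subst h0
    have h1 : n = 0 := by
      have h2 : ∑ l, cnt ([] : List (Fac X J Z)) l * deg l = 0 := by simp [cnt]
      omega
    rw [h1, pp_nil]
    exact hA.one Z
  | succ N ih =>
    intro Z P hP hTV n hn
    by_cases hlen : P.length ≤ N
    · exact ih Z P hlen hTV n hn
    by_cases hsmall : P.length ≤ bound r C
    · obtain ⟨w, φ, Q, hw, hQ, hφ⟩ := exists_rep (W := W) P (by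
        intro h0; rw [h0, List.length_nil] at hlen; omega)
      have hcnt : cnt P = cnt Q := by rw [← hφ, cnt_comp]
      rw [hcnt] at hTV hn
      obtain ⟨s, hs, h1⟩ := pp_mem_genTate hm hfr hμ hdeg hα Q hQ hTV hn
      rw [← hφ, ← pp_comp]
      exact hA.pull _ _ φ n _ (hT w (by rw [hw]; exact hsmall) s n hs h1)
    · have hbig : bound r C < ∑ l, cnt P l := by rw [sum_cnt]; omega
      obtain ⟨f, g, hfg, hf0, hg0, hf1, hf2, hg1, hg2⟩ := exists_split hr
        (slopes D (p ^ m) deg fun l => σ (μ l)) (fun c hc j => by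
          have h1 := hα.slopes_bounded hc j
          have h2 : ((D * deg j : ℕ) : ℤ) ≤ C := by exact_mod_cast hC j
          push_cast at h2
          rw [abs_le]
          exact ⟨by linarith [h1.1], by linarith [h1.2]⟩) deg (cnt P) hTV.1 hTV.2 hbig
      obtain ⟨P₁, P₂, hperm, h1, h2⟩ := cnt_split P f g hfg
      obtain ⟨c, hc⟩ := pp_perm hdeg hperm
      have hlen2 : P.length = P₁.length + P₂.length := by
        rw [hperm.length_eq, List.length_append]
      have hpos : ∀ (Q : List (Fac X J Z)), cnt Q ≠ 0 → 0 < Q.length := by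
        intro Q hQ
        rcases Nat.eq_zero_or_pos Q.length with h | h
        · exact absurd (by rw [List.length_eq_zero_iff.mp h]; rfl) hQ
        · exact h
      have hp1 := hpos P₁ (by rw [h1]; exact hf0)
      have hp2 := hpos P₂ (by rw [h2]; exact hg0)
      obtain ⟨n₁, hn₁⟩ := hf2
      obtain ⟨n₂, hn₂⟩ := hg2
      have hnn : n = n₁ + n₂ := by
        have h3 : ∑ l, cnt P l * deg l = ∑ l, f l * deg l + ∑ l, g l * deg l := by
          rw [← hfg, ← Finset.sum_add_distrib]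
          exact Finset.sum_congr rfl fun l _ => add_mul _ _ _
        omega
      rw [hc, pp_append, hnn]
      refine Submodule.smul_mem _ _ (hA.mul Z n₁ n₂ _ _ ?_ ?_)
      · exact ih Z P₁ (by omega) (by rw [h1]; exact ⟨hf1, ⟨n₁, hn₁⟩⟩) n₁ (by rw [h1]; omega)
      · exact ih Z P₂ (by omega) (by rw [h2]; exact ⟨hg1, ⟨n₂, hn₂⟩⟩) n₂ (by rw [h2]; omega)

end Gen

/-! ### Conclusion -/

/-- A generalised eigenvector in an invariant subspace gives an eigenvector in it. -/
lemma exists_eigen {F V : Type*} [Field F] [AddCommGroup V] [Module F V] {f : Module.End F V}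
    {c : F} {x : V} (hx : x ∈ f.maxGenEigenspace c) (hx0 : x ≠ 0) (U : Submodule F V)
    (hU : ∀ y ∈ U, f y ∈ U) (hxU : x ∈ U) : ∃ y ∈ U, y ≠ 0 ∧ f y = c • y := by
  classical
  rw [mem_gen] at hx
  have hN := Nat.find_spec hx
  set N := Nat.find hx with hNdef
  have hN0 : N ≠ 0 := by
    intro h0
    rw [h0, pow_zero, Module.End.one_apply] at hN
    exact hx0 hN
  obtain ⟨M, hM⟩ := Nat.exists_eq_succ_of_ne_zero hN0
  have hmem : ∀ n : ℕ, ((f - algebraMap F _ c) ^ n) x ∈ U := by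
    intro n
    induction n with
    | zero => exact hxU
    | succ n ih =>
      rw [pow_succ', Module.End.mul_apply, LinearMap.sub_apply, Module.algebraMap_end_apply]
      exact Submodule.sub_mem _ (hU _ ih) (Submodule.smul_mem _ _ ih)
  refine ⟨((f - algebraMap F _ c) ^ M) x, hmem M, ?_, ?_⟩
  · exact Nat.find_min hx (by omega)
  · have h1 : ((f - algebraMap F _ c) ^ (M + 1)) x = 0 := by
      rw [← Nat.succ_eq_add_one, ← hM]; exact hN
    rw [pow_succ', Module.End.mul_apply, LinearMap.sub_apply, Module.algebraMap_end_apply] at h1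
    exact sub_eq_zero.mp h1

lemma isAlgClosed_of_ringEquiv {F : Type*} [Field F] (σ : F ≃+* ℂ) : IsAlgClosed F := by
  refine IsAlgClosed.of_exists_root F fun P _ hP => ?_
  obtain ⟨z, hz⟩ := IsAlgClosed.exists_root (P.map σ.toRingHom) (by
    rw [Polynomial.degree_map]; exact hP.degree_pos.ne')
  refine ⟨σ.symm z, σ.injective ?_⟩
  rw [IsRoot, Polynomial.eval_map] at hz
  have h1 : σ (P.eval (σ.symm z)) = P.eval₂ σ.toRingHom z := by
    conv_rhs => rw [show z = σ.toRingHom (σ.symm z) from (σ.apply_symm_apply z).symm]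
    rw [Polynomial.eval₂_at_apply]
    rfl
  rw [h1, hz, map_zero]

variable {p : ℕ} {Φ : FrobSystem W p} {fr : ∀ i, X i ⟶ X i} {m : ℕ}

/-- Bases of generalised eigenvectors. -/
theorem exists_weil_basis [Fintype I] (σ : W.K ≃+* ℂ) (hp : 1 < p) {D : ℕ} (hD : 0 < D)
    (hm : 0 < m) (hX : ∀ i, IsModel Φ D m (fr i)) {r d : ℕ}
    (hr : ∑ i, Module.finrank W.K (W.H (X i)) ≤ r) (hd : ∀ i, (X i).dim ≤ d) :
    ∃ (b : ∀ i, Module.Basis (Fin (Module.finrank W.K (W.H (X i)))) W.K (W.H (X i)))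
      (deg : (Σ i, Fin (Module.finrank W.K (W.H (X i)))) → ℕ)
      (μ : (Σ i, Fin (Module.finrank W.K (W.H (X i)))) → W.K),
      (∀ i j, b i j ∈ Module.End.maxGenEigenspace (W.map (fr i)).toLinearMap (μ ⟨i, j⟩)) ∧
      (∀ i j, b i j ∈ W.gr (X i) (deg ⟨i, j⟩)) ∧
      IsWeilSystem r D (p ^ m) deg (fun l => σ (μ l)) ∧
      Fintype.card (Σ i, Fin (Module.finrank W.K (W.H (X i)))) ≤ r ∧ ∀ l, deg l ≤ 2 * d := by
  classical
  have hchar : CharZero W.K := W.charZero
  have hclosed : IsAlgClosed W.K := isAlgClosed_of_ringEquiv σ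
  let J : I → Type := fun i => Fin (Module.finrank W.K (W.H (X i)))
  have hex := fun i => exists_gen_basis (F := W.K) (gr := W.gr (X i))
    ((W.isInternal (X i)).submodule_iSup_eq_top) (W.map (fr i)).toLinearMap
    (fun n x hx => W.map_mem (fr i) hx)
  choose b deg' μ' hb using hex
  let deg : (Σ i, J i) → ℕ := fun l => deg' l.1 l.2
  let μ : (Σ i, J i) → W.K := fun l => μ' l.1 l.2
  have hcard : Fintype.card (Σ i, J i) ≤ r := by
    rw [Fintype.card_sigma]
    simpa [J] using hr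
  have hb0 : ∀ i j, b i j ≠ 0 := fun i j => (b i).ne_zero j
  have hdeg : ∀ l, deg l ≤ 2 * d := by
    rintro ⟨i, j⟩
    by_contra hcon
    have h1 : 2 * (X i).dim < deg' i j := by
      have := hd i
      have h2 : ¬ deg' i j ≤ 2 * d := hcon
      omega
    have h2 := (hb i j).1
    rw [W.gr_eq_bot _ _ h1] at h2
    exact hb0 i j ((Submodule.mem_bot W.K).mp h2)
  have hinj : Function.Injective (Int.castRingHom W.K) := Int.cast_injective
  have hα : IsWeilSystem r D (p ^ m) deg (fun l => σ (μ l)) := by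
    refine ⟨Nat.one_lt_pow hm.ne' hp, hD, ?_, ?_⟩
    · rintro ⟨i, j⟩
      obtain ⟨h, hh, hroot⟩ := (hX i).weil (deg' i j)
      have hstab : ∀ x ∈ W.gr (X i) (deg' i j), (W.map (fr i)).toLinearMap x ∈
          W.gr (X i) (deg' i j) := fun x hx => W.map_mem (fr i) hx
      have hcp : charpolyOn (W.map (fr i)).toLinearMap (W.gr (X i) (deg' i j)) =
          ((W.map (fr i)).toLinearMap.restrict hstab).charpoly := dif_pos hstab
      have hmon : (h.map (Int.castRingHom W.K)).Monic := by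
        rw [← hh, hcp]; exact LinearMap.charpoly_monic _
      refine ⟨h, Polynomial.monic_of_injective hinj hmon, ?_, ?_, ?_⟩
      · rw [← Polynomial.natDegree_map_eq_of_injective hinj, ← hh, hcp,
          LinearMap.charpoly_natDegree]
        refine (Submodule.finrank_le _).trans (le_trans ?_ hr)
        exact Finset.single_le_sum (f := fun i => Module.finrank W.K (W.H (X i)))
          (fun _ _ => Nat.zero_le _) (Finset.mem_univ i)
      · obtain ⟨y, hy, hy0, hye⟩ := exists_eigen (hb i j).2 (hb0 i j) _ hstab (hb i j).1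
        have h1 : (h.map (Int.castRingHom W.K)).IsRoot (μ' i j) := by
          rw [← hh, hcp]
          refine Module.End.hasEigenvalue_iff_isRoot_charpoly _ _ |>.mp ?_
          refine Module.End.hasEigenvalue_of_hasEigenvector (x := ⟨y, hy⟩)
            ⟨Module.End.mem_eigenspace_iff.mpr (Subtype.ext hye), fun h0 => hy0 ?_⟩
          exact congrArg Subtype.val h0
        rw [IsRoot, Polynomial.eval_map] at h1
        have h2 : aeval (μ' i j) h = 0 := h1
        have h3 := hom_aeval_int σ.toRingHom (μ' i j) h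
        rw [h2, map_zero] at h3
        exact h3.symm
      · intro z hz
        exact hroot z hz
    · rintro v ⟨i, j⟩
      obtain ⟨y, hy, hy0, hye⟩ := exists_eigen (hb i j).2 (hb0 i j) ⊤
        (fun _ _ => Submodule.mem_top) Submodule.mem_top
      obtain ⟨u, hu1, hu2⟩ := (hX i).slopes _ (Module.End.hasEigenvalue_of_hasEigenvector
        (x := y) ⟨Module.End.mem_eigenspace_iff.mpr hye, hy0⟩) (v.comap σ.toRingHom)
      refine ⟨u, ?_, ?_⟩
      · have h1 := ValuationSubring.mem_comap.mp hu1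
        have h2 : σ.toRingHom (μ' i j ^ D / ((p : W.K) ^ m) ^ u) = σ (μ' i j) ^ D /
            ((p ^ m : ℕ) : ℂ) ^ u := by
          show σ _ = _
          rw [map_div₀, map_pow, map_zpow₀, map_pow, map_natCast]
          push_cast
          rfl
        show σ (μ' i j) ^ D / ((p ^ m : ℕ) : ℂ) ^ u ∈ v
        rw [← h2]
        exact h1
      · have h1 := ValuationSubring.mem_comap.mp hu2
        have h2 : σ.toRingHom (((p : W.K) ^ m) ^ u / μ' i j ^ D) = ((p ^ m : ℕ) : ℂ) ^ u /
            σ (μ' i j) ^ D := by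
          show σ _ = _
          rw [map_div₀, map_pow, map_zpow₀, map_pow, map_natCast]
          push_cast
          rfl
        show ((p ^ m : ℕ) : ℂ) ^ u / σ (μ' i j) ^ D ∈ v
        rw [← h2]
        exact h1
  exact ⟨b, deg, μ, fun i j => (hb i j).2, fun i j => (hb i j).1, hα, hcard, hdeg⟩

/-- **The universal bound.** -/
theorem main [Fintype I] (σ : W.K ≃+* ℂ) (hp : 1 < p) {D : ℕ} (hD : 0 < D) (hm : 0 < m)
    (hX : ∀ i, IsModel Φ D m (fr i)) {r d : ℕ}
    (hr : ∑ i, Module.finrank W.K (W.H (X i)) ≤ r) (hd : ∀ i, (X i).dim ≤ d)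
    {A : ∀ Z : 𝒱.Obj, ℕ → Submodule W.K (W.H Z)} (hA : IsClosedSystem W A)
    (hT : ∀ w : FreeMagma I, w.length ≤ bound r (2 * d * D) → TateClassesIn Φ A (wordObj X w)) :
    ∀ w : FreeMagma I, TateClassesIn Φ A (wordObj X w) := by
  obtain ⟨b, deg, μ, hμ, hgr, hα, hcard, hdeg⟩ := exists_weil_basis σ hp hD hm hX hr hd
  have hfr : ∀ i, ∃ a c : ℕ, 0 < a ∧ 0 < c ∧ a * m = c * Φ.e (X i) ∧
    W534.iter (fr i) a = W534.iter (Φ.Fr (X i)) c := fun i => (hX i).frobenius
  intro w s n hs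
  refine (genTate_le_span (b := fun i j => b i j) hm hfr (fun i => (b i).span_eq) hμ hgr hα w
    hs n).trans ?_
  rw [Submodule.span_le]
  rintro x ⟨P, hP1, hP2, rfl⟩
  refine pp_mem (b := fun i j => b i j) hm hfr hμ hgr hα hA hcard (C := 2 * d * D) ?_ hT _ _ P
    le_rfl hP2 n hP1
  intro l
  calc D * deg l ≤ D * (2 * d) := Nat.mul_le_mul_left _ (hdeg l)
    _ = 2 * d * D := by ring

/-- The classes of algebraic cycles form a closed system. -/
theorem isClosedSystem_cycles (W : WeilCohomology.{u, v} ops) :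
    IsClosedSystem W (fun Z n => spanCycles W Z n) where
  subalgebra Z := by
    refine ⟨?_, fun m n x y hx hy => ?_⟩
    · show (1 : W.H Z) ∈ spanCycles W Z ((0 : ℕ) : ℤ)
      rw [← W.cl_fund Z]
      exact Submodule.subset_span ⟨0, rfl, _, Z.V.fundCycle_mem, rfl⟩
    · show x * y ∈ spanCycles W Z ((m + n : ℕ) : ℤ)
      replace hx : x ∈ spanCycles W Z (m : ℤ) := hx
      replace hy : y ∈ spanCycles W Z (n : ℤ) := hy
      rw [spanCycles_eq] at hx hy ⊢
      induction hx using Submodule.span_induction with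
      | mem x hx =>
        obtain ⟨z, hz, rfl⟩ := hx
        induction hy using Submodule.span_induction with
        | mem y hy =>
          obtain ⟨z', hz', rfl⟩ := hy
          rw [← W.cl_mul]
          exact Submodule.subset_span ⟨_, ops.mul_mem hz hz', rfl⟩
        | zero => rw [mul_zero]; exact Submodule.zero_mem _
        | add y y' _ _ h h' => rw [mul_add]; exact Submodule.add_mem _ h h'
        | smul c y _ h => rw [mul_smul_comm]; exact Submodule.smul_mem _ _ h
      | zero => rw [zero_mul]; exact Submodule.zero_mem _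
      | add x x' _ _ h h' => rw [add_mul]; exact Submodule.add_mem _ h h'
      | smul c x _ h => rw [smul_mul_assoc]; exact Submodule.smul_mem _ _ h
  pull_mem Y Z f n x hx := by
    show W.map f x ∈ spanCycles W Y (n : ℤ)
    replace hx : x ∈ spanCycles W Z (n : ℤ) := hx
    rw [spanCycles_eq] at hx ⊢
    induction hx using Submodule.span_induction with
    | mem x hx =>
      obtain ⟨z, hz, rfl⟩ := hx
      rw [← W.cl_pull]
      exact Submodule.subset_span ⟨_, ops.pull_mem f hz, rfl⟩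
    | zero => rw [map_zero]; exact Submodule.zero_mem _
    | add x x' _ _ h h' => rw [map_add]; exact Submodule.add_mem _ h h'
    | smul c x _ h => rw [map_smul]; exact Submodule.smul_mem _ _ h

end Pool.Agent.Y136.UB
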