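import Pool.Agent.Y136.UB.Dual

/-!
# The Tate conjecture for products and the indecomposable relations between eigenvalues
-/

open CategoryTheory AlgebraicGeometry Polynomial

universe u v

namespace Pool.Agent.Y136.UB

open Pool.Agent.H914 Pool.Agent.W534 VarClass Obj WeilCohomology IsWeilSystem

variable {k : Type u} [Field k] {𝒱 : VarClass k} {ops : CycleOps 𝒱}
  {W : WeilCohomology.{u, v} ops} {I : Type} {X : I → 𝒱.Obj} {J : I → Type}
  {fr : ∀ i, X i ⟶ X i}

lemma eigProd_of_inv {i : I} {L : List (I × ℕ × W.K)} {y : W.H (X i)}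
    (h : IsEigProd W fr (.of i) L y) : ∃ n a, L = [(i, n, a)] ∧ y ∈ W.gr (X i) n ∧
      y ∈ Module.End.maxGenEigenspace (W.map (fr i)).toLinearMap a := by
  cases h with
  | of _ n a _ hy ha => exact ⟨n, a, rfl, hy, ha⟩

lemma eigProd_mul_inv {v w : FreeMagma I} {L : List (I × ℕ × W.K)}
    {x : W.H ((wordObj X v).prod (wordObj X w))}
    (h : IsEigProd W fr (.mul v w) L x) : ∃ L₁ L₂ y z, L = L₁ ++ L₂ ∧
      x = W.map (fst (wordObj X v) (wordObj X w)) y *
        W.map (snd (wordObj X v) (wordObj X w)) z ∧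
      IsEigProd W fr v L₁ y ∧ IsEigProd W fr w L₂ z := by
  cases h with
  | mul _ _ L₁ L₂ y z hy hz => exact ⟨L₁, L₂, y, z, rfl, rfl, hy, hz⟩

lemma eigProd_length {w : FreeMagma I} {L : List (I × ℕ × W.K)} {y : W.H (wordObj X w)}
    (h : IsEigProd W fr w L y) : L.length = w.length := by
  induction h with
  | of i n a y hy ha => rfl
  | mul v w L M y z _ _ ihy ihz =>
    rw [List.length_append, ihy, ihz]; rfl

lemma eigProd_gr {w : FreeMagma I} {L : List (I × ℕ × W.K)} {y : W.H (wordObj X w)}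
    (h : IsEigProd W fr w L y) : y ∈ W.gr (wordObj X w) (L.map fun t => t.2.1).sum := by
  induction h with
  | of i n a y hy ha => exact hy
  | mul v w L M y z _ _ ihy ihz =>
    rw [List.map_append, List.sum_append]
    exact gr_prod ihy ihz

lemma gen_ext {Y Z : 𝒱.Obj} {S : Module.End W.K (W.H Y)} {T : Module.End W.K (W.H Z)} {a b : W.K}
    {y : W.H Y} {z : W.H Z} (hy : y ∈ S.maxGenEigenspace a) (hz : z ∈ T.maxGenEigenspace b) :
    W.map (fst Y Z) y * W.map (snd Y Z) z ∈ (extOp W S T).maxGenEigenspace (a * b) := by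
  have h1 := gen_map (kappa W Y Z).toLinearMap (g := extOp W S T) (fun x => by
    rw [extOp, LinearMap.comp_apply, LinearMap.comp_apply, LinearEquiv.coe_coe,
      LinearEquiv.coe_coe, LinearEquiv.symm_apply_apply]) (gen_tmul hy hz)
  rw [LinearEquiv.coe_coe, kappa_tmul] at h1
  exact h1

lemma eigProd_gen {w : FreeMagma I} {L : List (I × ℕ × W.K)} {y : W.H (wordObj X w)}
    (h : IsEigProd W fr w L y) (R : ℕ) :
    y ∈ Module.End.maxGenEigenspace (wordOp W X (fun i => (W.map (fr i)).toLinearMap ^ R) w)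
      ((L.map fun t => t.2.2).prod ^ R) := by
  induction h with
  | of i n a y hy ha =>
    have h1 : (([(i, n, a)] : List (I × ℕ × W.K)).map fun t => t.2.2).prod = a := by simp
    rw [h1]
    exact gen_pow ha R
  | mul v w L M y z _ _ ihy ihz =>
    rw [List.map_append, List.prod_append, mul_pow]
    exact gen_ext ihy ihz

variable {p : ℕ} {Φ : FrobSystem W p} {m : ℕ}

/-- External products of eigenvectors with a relation between the eigenvalues are Tate classes. -/
lemma eigProd_genTate (hm : 0 < m) (hfr : ∀ i, ∃ a c : ℕ, 0 < a ∧ 0 < c ∧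
      a * m = c * Φ.e (X i) ∧ W534.iter (fr i) a = W534.iter (Φ.Fr (X i)) c)
    {w : FreeMagma I} {L : List (I × ℕ × W.K)} {y : W.H (wordObj X w)}
    (h : IsEigProd W fr w L y) {n R : ℕ} (hR : 0 < R)
    (hn : (L.map fun t => t.2.1).sum = 2 * n)
    (hL : (L.map fun t => t.2.2).prod ^ R = ((p : W.K) ^ m) ^ (n * R)) :
    ∃ s, 0 < s ∧ y ∈ genTate Φ (wordObj X w) s n := by
  obtain ⟨A, B, hA, hB, he, h1⟩ := frob_word hm hfr w
  refine ⟨A * R, Nat.mul_pos hA hR, ?_, ?_⟩
  · have h2 := gen_pow (eigProd_gen h B) R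
    rw [← h1, ← pow_mul, ← pow_mul, mul_comm B R, pow_mul (L.map fun t => t.2.2).prod, hL] at h2
    show y ∈ Module.End.maxGenEigenspace
      (W.map (W534.iter (Φ.Fr (wordObj X w)) (A * R))).toLinearMap _
    rw [map_iter_eq_pow]
    have h4 : ((((p : W.K) ^ m) ^ (n * R)) ^ B) = (card Φ (wordObj X w) (A * R) : W.K) ^ n := by
      unfold card
      push_cast
      rw [← pow_mul, ← pow_mul, ← pow_mul]
      congr 1
      calc m * (n * R * B) = (B * m) * (n * R) := by ring
        _ = (A * Φ.e (wordObj X w)) * (n * R) := by rw [he]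
        _ = _ := by ring
    rw [h4] at h2
    exact h2
  · rw [← hn]; exact eigProd_gr h

/-- The Frobenius endomorphisms act by scalars in top degree. -/
lemma exists_degrees [Fintype I] (hfr : ∀ i, ∃ a c : ℕ, 0 < a ∧ 0 < c ∧
      a * m = c * Φ.e (X i) ∧ W534.iter (fr i) a = W534.iter (Φ.Fr (X i)) c) :
    ∃ (δ : I → W.K) (R₀ : ℕ), 0 < R₀ ∧
      (∀ i, δ i ^ R₀ = ((p : W.K) ^ m) ^ ((X i).dim * R₀)) ∧
      ∀ i, ∀ c ∈ W.gr (X i) (2 * (X i).dim), (W.map (fr i)).toLinearMap c = δ i • c := by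
  choose a c ha hc hac h using hfr
  have h1 : ∀ i, ∃ δ : W.K, δ ^ a i = (((p : W.K) ^ m) ^ (X i).dim) ^ a i ∧
      ∀ c ∈ W.gr (X i) (2 * (X i).dim), (W.map (fr i)).toLinearMap c = δ • c := by
    intro i
    refine exists_scalar _ (fun x hx => W.map_mem (fr i) hx) fun x hx => ?_
    have h2 : ∀ (n : ℕ), ((W.map (Φ.Fr (X i))).toLinearMap ^ n) x =
        ((p : W.K) ^ (Φ.e (X i) * (X i).dim)) ^ n • x := by
      intro n
      induction n with
      | zero => simp
      | succ n ih =>
        rw [pow_succ', Module.End.mul_apply, ih, map_smul, AlgHom.toLinearMap_apply, Φ.deg hx,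
          smul_smul, pow_succ]
    rw [← map_iter_eq_pow, h i, map_iter_eq_pow, h2]
    congr 1
    rw [← pow_mul, ← pow_mul, ← pow_mul]
    congr 1
    calc Φ.e (X i) * (X i).dim * c i = (c i * Φ.e (X i)) * (X i).dim := by ring
      _ = (a i * m) * (X i).dim := by rw [hac i]
      _ = _ := by ring
  choose δ h2 h3 using h1
  refine ⟨δ, ∏ i, a i, Finset.prod_pos fun i _ => ha i, fun i => ?_, h3⟩
  obtain ⟨d, hd⟩ := Finset.dvd_prod_of_mem a (Finset.mem_univ i)
  rw [hd, pow_mul, h2 i, ← pow_mul, ← pow_mul]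

section Dual

variable {δ : I → W.K}

/-- Dual products of eigenvectors. -/
lemma exists_dual_prod [IsAlgClosed W.K]
    (hδ : ∀ i, ∀ c ∈ W.gr (X i) (2 * (X i).dim), (W.map (fr i)).toLinearMap c = δ i • c)
    {w : FreeMagma I} {L : List (I × ℕ × W.K)} {y : W.H (wordObj X w)}
    (h : IsEigProd W fr w L y) (hy : y ≠ 0) : ∃ (L' : List (I × ℕ × W.K))
      (y' : W.H (wordObj X w)), List.Forall₂ (DualE (fun i => (X i).dim) δ) L L' ∧ y' ≠ 0 ∧
      IsEigProd W fr w L' y' := by
  induction h with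
  | of i n a y hyn hya =>
    obtain ⟨n', a', z, h1, h2, h3, h4, h5⟩ := exists_dual_vec
      (fun x y => map_mul (W.map (fr i)) x y) (fun n x hx => W.map_mem (fr i) hx) (hδ i) hyn hya hy
    refine ⟨[(i, n', a')], z, List.Forall₂.cons ⟨rfl, h1, h2⟩ List.Forall₂.nil, ?_,
      IsEigProd.of i n' a' z h3 h4⟩
    intro h0
    have h0' : z = (0 : W.H (X i)) := h0
    exact h5 (by rw [h0', mul_zero, map_zero])
  | mul v w L M y z _ _ ihy ihz =>
    have hy0 : y ≠ 0 := by
      rintro rfl
      exact hy (by rw [map_zero, zero_mul]; rfl)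
    have hz0 : z ≠ 0 := by
      rintro rfl
      exact hy (by rw [map_zero, mul_zero]; rfl)
    obtain ⟨L', y', h1, h2, h3⟩ := ihy hy0
    obtain ⟨M', z', h4, h5, h6⟩ := ihz hz0
    refine ⟨L' ++ M', W.map (fst (wordObj X v) (wordObj X w)) y' *
      W.map (snd (wordObj X v) (wordObj X w)) z', List.rel_append h1 h4, ?_,
      IsEigProd.mul v w L' M' y' z' h3 h6⟩
    rw [← kappa_tmul]
    intro h0
    have h7 := (LinearEquiv.map_eq_zero_iff _).mp h0
    obtain ⟨f, hf⟩ := Module.Projective.exists_dual_eq_one W.K h2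
    obtain ⟨g, hg⟩ := Module.Projective.exists_dual_eq_one W.K h5
    have h8 := congrArg (TensorProduct.lift (f.smulRight g : W.H (wordObj X v) →ₗ[W.K]
      Module.Dual W.K (W.H (wordObj X w)))) h7
    rw [map_zero, TensorProduct.lift.tmul, LinearMap.smulRight_apply, hf, one_smul, hg] at h8
    exact one_ne_zero h8

/-- Correspondences on products. -/
lemma corr_prod {V U : 𝒱.Obj} {y y' : W.H V} {z z' : W.H U} {i j : ℕ} (hz' : z' ∈ W.gr U i)
    (hy : y ∈ W.gr V j)
    (h3 : W.map (fst V V) y' * W.map (snd V V) y ∈ spanCycles W (V.prod V) (V.dim : ℕ))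
    (h4 : W.map (fst U U) z' * W.map (snd U U) z ∈ spanCycles W (U.prod U) (U.dim : ℕ)) :
    W.map (fst (V.prod U) (V.prod U)) (W.map (fst V U) y' * W.map (snd V U) z') *
      W.map (snd (V.prod U) (V.prod U)) (W.map (fst V U) y * W.map (snd V U) z) ∈
        spanCycles W ((V.prod U).prod (V.prod U)) ((V.prod U).dim : ℕ) := by
  have hc := isClosedSystem_cycles W
  let α : (V.prod U).prod (V.prod U) ⟶ V.prod V :=
    Obj.lift (fst (V.prod U) (V.prod U) ≫ fst V U) (snd (V.prod U) (V.prod U) ≫ fst V U)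
  let β : (V.prod U).prod (V.prod U) ⟶ U.prod U :=
    Obj.lift (fst (V.prod U) (V.prod U) ≫ snd V U) (snd (V.prod U) (V.prod U) ≫ snd V U)
  have h5 := hc.pull _ _ α _ _ h3
  have h6 := hc.pull _ _ β _ _ h4
  have h7 := hc.mul _ _ _ _ _ h5 h6
  have hα1 : α ≫ fst V V = fst (V.prod U) (V.prod U) ≫ fst V U := Obj.lift_fst _ _
  have hα2 : α ≫ snd V V = snd (V.prod U) (V.prod U) ≫ fst V U := Obj.lift_snd _ _
  have hβ1 : β ≫ fst U U = fst (V.prod U) (V.prod U) ≫ snd V U := Obj.lift_fst _ _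
  have hβ2 : β ≫ snd U U = snd (V.prod U) (V.prod U) ≫ snd V U := Obj.lift_snd _ _
  rw [map_mul (W.map α), map_mul (W.map β), ← W.map_comp, ← W.map_comp, ← W.map_comp,
    ← W.map_comp, hα1, hα2, hβ1, hβ2, W.map_comp, W.map_comp, W.map_comp, W.map_comp] at h7
  have h8 : W.map (fst (V.prod U) (V.prod U)) (W.map (fst V U) y' * W.map (snd V U) z') *
      W.map (snd (V.prod U) (V.prod U)) (W.map (fst V U) y * W.map (snd V U) z) =
      (-1 : W.K) ^ (i * j) •
      (W.map (fst (V.prod U) (V.prod U)) (W.map (fst V U) y') *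
        W.map (snd (V.prod U) (V.prod U)) (W.map (fst V U) y) *
        (W.map (fst (V.prod U) (V.prod U)) (W.map (snd V U) z') *
        W.map (snd (V.prod U) (V.prod U)) (W.map (snd V U) z))) := by
    have h9 : W.map (fst (V.prod U) (V.prod U)) (W.map (snd V U) z') ∈ W.gr _ i :=
      W.map_mem _ (W.map_mem _ hz')
    have h10 : W.map (snd (V.prod U) (V.prod U)) (W.map (fst V U) y) ∈ W.gr _ j :=
      W.map_mem _ (W.map_mem _ hy)
    have h11 := W.comm h9 h10
    rw [map_mul (W.map (fst (V.prod U) (V.prod U))), map_mul (W.map (snd (V.prod U) (V.prod U))),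
      mul_assoc, ← mul_assoc (W.map (fst (V.prod U) (V.prod U)) (W.map (snd V U) z')), h11]
    simp only [smul_mul_assoc, mul_smul_comm, mul_assoc]
  rw [h8]
  exact Submodule.smul_mem _ _ h7

/-- A product of dual products of eigenvectors is algebraic if the Tate conjecture holds for the
squares of the factors. -/
lemma corr_alg (hm : 0 < m) {R₀ : ℕ} (hR₀ : 0 < R₀)
    (hfr : ∀ i, ∃ a c : ℕ, 0 < a ∧ 0 < c ∧
      a * m = c * Φ.e (X i) ∧ W534.iter (fr i) a = W534.iter (Φ.Fr (X i)) c)
    (hδq : ∀ i, δ i ^ R₀ = ((p : W.K) ^ m) ^ ((X i).dim * R₀))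
    (hsq : ∀ i, SemisimpleTateIn Φ ((X i).prod (X i)) (X i).dim)
    (w : FreeMagma I) : ∀ (L L' : List (I × ℕ × W.K)) (y y' : W.H (wordObj X w)),
      IsEigProd W fr w L y → IsEigProd W fr w L' y' →
      List.Forall₂ (DualE (fun i => (X i).dim) δ) L L' →
      W.map (fst (wordObj X w) (wordObj X w)) y' * W.map (snd (wordObj X w) (wordObj X w)) y ∈
        spanCycles W ((wordObj X w).prod (wordObj X w)) ((wordObj X w).dim : ℕ) := by
  induction w with
  | ih1 i =>
    intro L L' y y' hy hy' hLL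
    have h1 := IsEigProd.mul (.of i) (.of i) L' L y' y hy' hy
    obtain ⟨n, a, rfl, hyn, hya⟩ := eigProd_of_inv hy
    obtain ⟨n', a', rfl, hyn', hya'⟩ := eigProd_of_inv hy'
    rw [List.forall₂_cons] at hLL
    obtain ⟨⟨-, hd, hd'⟩, -⟩ := hLL
    simp only at hd hd'
    obtain ⟨s, hs, h2⟩ := eigProd_genTate (Φ := Φ) hm hfr h1 (n := (X i).dim) (R := R₀) hR₀
      (by simp; omega) (by
        simp only [List.cons_append, List.nil_append, List.map_cons, List.map_nil,
          List.prod_cons, List.prod_nil, mul_one]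
        rw [mul_comm, hd', hδq])
    exact hsq i s hs h2
  | ih2 v w hv hw =>
    intro L L' x x' hx hx' hLL
    have hx₀ : IsEigProd W fr (.mul v w) L x := hx
    have hx₀' : IsEigProd W fr (.mul v w) L' x' := hx'
    obtain ⟨L₁, L₂, y, z, rfl, rfl, hy, hz⟩ := eigProd_mul_inv hx₀
    obtain ⟨L₁', L₂', y', z', rfl, rfl, hy', hz'⟩ := eigProd_mul_inv hx₀'
    obtain ⟨h1, h2⟩ := forall₂_append_inv hLL (by
      rw [eigProd_length hy, eigProd_length hy'])
    exact corr_prod (eigProd_gr hz') (eigProd_gr hy) (hv L₁ L₁' y y' hy hy' h1)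
      (hw L₂ L₂' z z' hz hz' h2)

end Dual

/-! ### The main theorem -/

lemma push_snd_mem {Z : 𝒱.Obj} {n : ℕ} {x : W.H (Z.prod Z)}
    (hx : x ∈ spanCycles W (Z.prod Z) ((n + Z.dim : ℕ) : ℤ)) :
    W.push (snd Z Z) x ∈ spanCycles W Z (n : ℤ) := by
  rw [spanCycles_eq] at hx ⊢
  induction hx using Submodule.span_induction with
  | mem x hx =>
    obtain ⟨z, hz, rfl⟩ := hx
    rw [← W.cl_push]
    refine Submodule.subset_span ⟨_, ops.push_mem _ hz ?_, rfl⟩
    show n + Z.dim + Z.dim = n + (Z.dim + Z.dim)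
    omega
  | zero => rw [map_zero]; exact Submodule.zero_mem _
  | add x y _ _ hx hy => rw [map_add]; exact Submodule.add_mem _ hx hy
  | smul a x _ hx => rw [map_smul]; exact Submodule.smul_mem _ _ hx

section Main

variable {b : ∀ i, J i → W.H (X i)} {deg : (Σ i, J i) → ℕ} {μ : (Σ i, J i) → W.K}

/-- The index, the degree and the eigenvalue of a factor. -/
def lbl (deg : (Σ i, J i) → ℕ) (μ : (Σ i, J i) → W.K) {Z : 𝒱.Obj} (t : Fac X J Z) :
    I × ℕ × W.K := (t.i, deg t.lab, μ t.lab)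

/-- Lists of factors are pull-backs of products of eigenvectors. -/
theorem exists_rep' (hμ : ∀ i j, b i j ∈ Module.End.maxGenEigenspace
      (W.map (fr i)).toLinearMap (μ ⟨i, j⟩))
    (hdeg : ∀ i j, b i j ∈ W.gr (X i) (deg ⟨i, j⟩)) {Z : 𝒱.Obj} (P : List (Fac X J Z))
    (hP : P ≠ []) : ∃ (w : FreeMagma I) (φ : Z ⟶ wordObj X w) (y : W.H (wordObj X w)),
      IsEigProd W fr w (P.map (lbl deg μ)) y ∧ W.map φ y = pp b P := by
  induction P with
  | nil => exact absurd rfl hP
  | cons a P ih =>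
    by_cases hP' : P = []
    · subst hP'
      refine ⟨.of a.i, a.π, b a.i a.j, IsEigProd.of a.i _ _ _ (hdeg a.i a.j) (hμ a.i a.j), ?_⟩
      rw [pp_cons, pp_nil, mul_one]
      rfl
    · obtain ⟨w, φ, y, hy, hφ⟩ := ih hP'
      refine ⟨.mul (.of a.i) w, Obj.lift a.π φ, W.map (fst (X a.i) (wordObj X w)) (b a.i a.j) *
        W.map (snd (X a.i) (wordObj X w)) y, ?_, ?_⟩
      · exact IsEigProd.mul (.of a.i) w _ _ _ _
          (IsEigProd.of a.i _ _ _ (hdeg a.i a.j) (hμ a.i a.j)) hy
      · rw [pp_cons, ← hφ]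
        have h1 : W.map (Obj.lift a.π φ) (W.map (fst (X a.i) (wordObj X w)) (b a.i a.j) *
            W.map (snd (X a.i) (wordObj X w)) y) = W.map a.π (b a.i a.j) * W.map φ y := by
          rw [map_mul (W.map (Obj.lift a.π φ)), ← W.map_comp, ← W.map_comp, Obj.lift_fst,
            Obj.lift_snd]
        exact h1

/-- Tate classes are combinations of products with a relation between the eigenvalues. -/
lemma genTate_le_span' (hm : 0 < m) (hfr : ∀ i, ∃ a c : ℕ, 0 < a ∧ 0 < c ∧
      a * m = c * Φ.e (X i) ∧ W534.iter (fr i) a = W534.iter (Φ.Fr (X i)) c)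
    (hb : ∀ i, Submodule.span W.K (Set.range (b i)) = ⊤)
    (hμ : ∀ i j, b i j ∈ Module.End.maxGenEigenspace (W.map (fr i)).toLinearMap (μ ⟨i, j⟩))
    (hdeg : ∀ i j, b i j ∈ W.gr (X i) (deg ⟨i, j⟩)) (w : FreeMagma I) {s : ℕ}
    (hs : 0 < s) (n : ℕ) :
    genTate Φ (wordObj X w) s n ≤ Submodule.span W.K {x | ∃ P : List (Fac X J (wordObj X w)),
      ((P.map (lbl deg μ)).map fun t => t.2.1).sum = 2 * n ∧
      IsTateList ((p : W.K) ^ m) (P.map (lbl deg μ)) ∧ pp b P = x} := by
  obtain ⟨A, R, hA, hR, he, h⟩ := frob_word hm hfr w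
  have hl1 : ∀ P : List (Fac X J (wordObj X w)),
      ((P.map (lbl deg μ)).map fun t => t.2.1) = P.map fun t => deg t.lab := fun P => by
    rw [List.map_map]; rfl
  have hl2 : ∀ P : List (Fac X J (wordObj X w)),
      ((P.map (lbl deg μ)).map fun t => t.2.2) = P.map fun t => μ t.lab := fun P => by
    rw [List.map_map]; rfl
  intro x hx
  obtain ⟨hx1, hx2⟩ := hx
  set F := (W.map (Φ.Fr (wordObj X w))).toLinearMap with hF
  let S : Set (W.H (wordObj X w)) := {x | ∃ P : List (Fac X J (wordObj X w)),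
    (∀ t ∈ P, Canon W w t) ∧ pp b P = x}
  have hxS : x ∈ Submodule.span W.K S := by
    have h0 : Submodule.span W.K S = ⊤ := span_pp hb w
    rw [h0]; exact Submodule.mem_top
  have h1 : x ∈ Submodule.span W.K (S ∩ W.gr (wordObj X w) (2 * n)) := by
    refine mem_span_inter (W.isInternal (wordObj X w)).submodule_iSupIndep ?_ hxS hx2
    rintro y ⟨P, hP, rfl⟩
    exact ⟨_, pp_gr hdeg P⟩
  have hx1' : x ∈ Module.End.maxGenEigenspace (F ^ (A * s))
      (((card Φ (wordObj X w) s : W.K) ^ n) ^ A) := by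
    have h2 : x ∈ Module.End.maxGenEigenspace (F ^ s) ((card Φ (wordObj X w) s : W.K) ^ n) := by
      rw [hF, ← map_iter_eq_pow]
      exact hx1
    have h3 := gen_pow h2 A
    rwa [← pow_mul, mul_comm s A] at h3
  have hgen : ∀ P : List (Fac X J (wordObj X w)), (∀ t ∈ P, Canon W w t) →
      pp b P ∈ Module.End.maxGenEigenspace (F ^ (A * s))
        (((P.map fun t => μ t.lab).prod ^ R) ^ s) := by
    intro P hP
    have h2 := gen_pow (pp_gen hμ h P hP) s
    rwa [← pow_mul] at h2
  have h2 : x ∈ Submodule.span W.K ((S ∩ W.gr (wordObj X w) (2 * n)) ∩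
      (Module.End.maxGenEigenspace (F ^ (A * s)) (((card Φ (wordObj X w) s : W.K) ^ n) ^ A) :
        Set (W.H (wordObj X w)))) := by
    refine mem_span_inter (Module.End.independent_maxGenEigenspace (F ^ (A * s))) ?_ h1 hx1'
    rintro y ⟨⟨P, hP, rfl⟩, -⟩
    exact ⟨_, hgen P hP⟩
  refine (Submodule.span_le.mpr ?_ : _ ≤ _) h2
  rintro y ⟨⟨⟨P, hP, rfl⟩, hy⟩, hy'⟩
  by_cases h0 : pp b P = 0
  · rw [h0]; exact Submodule.zero_mem _
  · have hd : (P.map fun t => deg t.lab).sum = 2 * n := by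
      by_contra hcon
      have h3 := pp_gr (b := b) (deg := deg) hdeg P
      have h4 := (W.isInternal (wordObj X w)).submodule_iSupIndep.pairwiseDisjoint
        (show (P.map fun t => deg t.lab).sum ≠ 2 * n from hcon)
      exact h0 ((Submodule.mem_bot W.K).mp (h4.le_bot ⟨h3, hy⟩))
    have hev : ((P.map fun t => μ t.lab).prod ^ R) ^ s =
        ((card Φ (wordObj X w) s : W.K) ^ n) ^ A := by
      by_contra hcon
      have h4 := (Module.End.independent_maxGenEigenspace (F ^ (A * s))).pairwiseDisjoint hcon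
      exact h0 ((Submodule.mem_bot W.K).mp (h4.le_bot ⟨hgen P hP, hy'⟩))
    refine Submodule.subset_span ⟨P, by rw [hl1]; exact hd, ⟨n, R * s, Nat.mul_pos hR hs,
      by rw [hl1]; exact hd, ?_⟩, rfl⟩
    rw [hl2, pow_mul, hev]
    unfold card
    push_cast
    rw [← pow_mul, ← pow_mul, ← pow_mul]
    congr 1
    calc Φ.e (wordObj X w) * s * (n * A) = (A * Φ.e (wordObj X w)) * (n * s) := by ring
      _ = (R * m) * (n * s) := by rw [he]
      _ = _ := by ring

/-- Products with a relation between the eigenvalues are algebraic. -/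
theorem pp_mem' [Fintype I] [IsAlgClosed W.K] (hm : 0 < m)
    (hfr : ∀ i, ∃ a c : ℕ, 0 < a ∧ 0 < c ∧
      a * m = c * Φ.e (X i) ∧ W534.iter (fr i) a = W534.iter (Φ.Fr (X i)) c)
    (hμ : ∀ i j, b i j ∈ Module.End.maxGenEigenspace (W.map (fr i)).toLinearMap (μ ⟨i, j⟩))
    (hdeg : ∀ i j, b i j ∈ W.gr (X i) (deg ⟨i, j⟩))
    (hsq : ∀ i, SemisimpleTateIn Φ ((X i).prod (X i)) (X i).dim)
    (hrep : RelationsRepresented W fr ((p : W.K) ^ m)) (N : ℕ) :
    ∀ (Z : 𝒱.Obj) (P : List (Fac X J Z)), P.length ≤ N →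
      IsTateList ((p : W.K) ^ m) (P.map (lbl deg μ)) →
      ∀ n, ((P.map (lbl deg μ)).map fun t => t.2.1).sum = 2 * n → pp b P ∈ spanCycles W Z n := by
  classical
  have hchar : CharZero W.K := W.charZero
  have hq : ((p : W.K) ^ m) ≠ 0 := pow_ne_zero _ (by exact_mod_cast Φ.p_pos.ne')
  have hc := isClosedSystem_cycles W
  obtain ⟨δ, R₀, hR₀, hδq, hδ⟩ := exists_degrees (Φ := Φ) hfr
  induction N with
  | zero =>
    intro Z P hP _ n hn
    have h0 : P = [] := List.length_eq_zero_iff.mp (by omega)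
    subst h0
    have h1 : n = 0 := by simpa using hn.symm
    rw [h1, pp_nil]
    exact hc.one Z
  | succ N ih =>
    intro Z P hP hT n hn
    by_cases hlen : P.length ≤ N
    · exact ih Z P hlen hT n hn
    have hP0 : P ≠ [] := by
      intro h0; rw [h0, List.length_nil] at hlen; omega
    by_cases hprim : IsPrimitive ((p : W.K) ^ m) (P.map (lbl deg μ))
    · obtain ⟨w, φ, y, hy, hφ⟩ := exists_rep' (b := b) hμ hdeg P hP0
      rw [← hφ]
      by_cases hy0 : y = 0
      · rw [hy0, map_zero]; exact Submodule.zero_mem _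
      obtain ⟨L', y₁, hLL, hy₁, hy₁'⟩ := exists_dual_prod hδ hy hy0
      obtain ⟨y', hy', n', c, hc', htr⟩ := hrep w L' (dual_primitive hq hR₀ hδq hLL hprim)
        ⟨y₁, hy₁, hy₁'⟩
      have h1 := corr_alg (Φ := Φ) hm hR₀ hfr hδq hsq w _ _ _ _ hy hy' hLL
      -- degrees
      have h2 : 2 * n' + (L'.map fun t => t.2.1).sum = 2 * (wordObj X w).dim := by
        by_contra hcon
        exact htr (W.tr_eq_zero (W.mul_mem (span_gr hc') (eigProd_gr hy')) hcon)
      have h3 := dual_sum hLL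
      have h4 : ∀ (w : FreeMagma I) (L : List (I × ℕ × W.K)) (y : W.H (wordObj X w)),
          IsEigProd W fr w L y → (wordObj X w).dim = (L.map fun t => (X t.1).dim).sum := by
        intro w L y h
        induction h with
        | of i n a y hy ha => simp [wordObj]
        | mul v w L M y z _ _ ihy ihz =>
          rw [List.map_append, List.sum_append, ← ihy, ← ihz]; rfl
      have h5 := h4 _ _ _ hy
      have hnn : n' = n := by omega
      subst hnn
      -- the correspondence
      have h6 : W.map (fst (wordObj X w) (wordObj X w)) c *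
          (W.map (fst (wordObj X w) (wordObj X w)) y' *
            W.map (snd (wordObj X w) (wordObj X w)) y) ∈
          spanCycles W _ ((n' + (wordObj X w).dim : ℕ) : ℤ) :=
        hc.mul _ _ _ _ _ (hc.pull _ _ _ _ _ hc') h1
      have h7 : W.push (snd (wordObj X w) (wordObj X w))
          (W.map (fst (wordObj X w) (wordObj X w)) c *
          (W.map (fst (wordObj X w) (wordObj X w)) y' *
            W.map (snd (wordObj X w) (wordObj X w)) y)) =
          W.tr (wordObj X w) (c * y') • y := by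
        rw [← mul_assoc, ← map_mul, W.push_snd]
      have h8 : W.push (snd (wordObj X w) (wordObj X w))
          (W.map (fst (wordObj X w) (wordObj X w)) c *
          (W.map (fst (wordObj X w) (wordObj X w)) y' *
            W.map (snd (wordObj X w) (wordObj X w)) y)) ∈ spanCycles W (wordObj X w) (n' : ℤ) := by
        exact push_snd_mem h6
      rw [h7] at h8
      have h9 : y ∈ spanCycles W (wordObj X w) (n' : ℤ) := by
        have h10 := Submodule.smul_mem _ (W.tr (wordObj X w) (c * y'))⁻¹ h8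
        rwa [smul_smul, inv_mul_cancel₀ htr, one_smul] at h10
      exact hc.pull _ _ φ _ _ h9
    · -- decomposable relations
      obtain ⟨K, hK, hKT, hK0, hK1⟩ : ∃ K, K.Sublist (P.map (lbl deg μ)) ∧
          IsTateList ((p : W.K) ^ m) K ∧ K ≠ [] ∧ K ≠ P.map (lbl deg μ) := by
        by_contra hcon
        refine hprim ⟨fun h0 => hP0 (List.map_eq_nil_iff.mp h0), hT, fun K hK hKT => ?_⟩
        by_contra h2
        rw [not_or] at h2
        exact hcon ⟨K, hK, hKT, h2.1, h2.2⟩
      obtain ⟨P₁, hP₁, rfl⟩ := List.sublist_map_iff.mp hK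
      obtain ⟨P₂, hperm⟩ := hP₁.exists_perm_append
      have hlen2 : P.length = P₁.length + P₂.length := by
        rw [hperm.length_eq, List.length_append]
      have h1 : P₁.length ≠ 0 := fun h => hK0 (by rw [List.length_eq_zero_iff.mp h]; rfl)
      have h2 : P₂.length ≠ 0 := by
        intro h
        refine hK1 ?_
        rw [hP₁.eq_of_length (by omega)]
      have hT2 : IsTateList ((p : W.K) ^ m) (P₂.map (lbl deg μ)) := by
        refine tate_compl hq hKT ?_
        rw [← List.map_append]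
        exact tate_perm (hperm.map _) hT
      obtain ⟨n₁, -, -, hn₁, -⟩ := id hKT
      obtain ⟨n₂, -, -, hn₂, -⟩ := id hT2
      have hnn : n = n₁ + n₂ := by
        have h3 := ((hperm.map (lbl deg μ)).map fun t : I × ℕ × W.K => t.2.1).sum_eq
        rw [List.map_append, List.map_append, List.sum_append, hn, hn₁, hn₂] at h3
        omega
      obtain ⟨c, hcc⟩ := pp_perm hdeg hperm
      rw [hcc, pp_append, hnn]
      refine Submodule.smul_mem _ _ (hc.mul Z n₁ n₂ _ _ ?_ ?_)
      · exact ih Z P₁ (by omega) hKT n₁ hn₁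
      · exact ih Z P₂ (by omega) hT2 n₂ hn₂

end Main

/-- **The Tate conjecture for all products is equivalent to the Tate conjecture for the squares and
the representation of the indecomposable relations by algebraic classes.** -/
theorem tate_iff [Fintype I] [IsAlgClosed W.K] (hm : 0 < m)
    (hfr : ∀ i, ∃ a c : ℕ, 0 < a ∧ 0 < c ∧
      a * m = c * Φ.e (X i) ∧ W534.iter (fr i) a = W534.iter (Φ.Fr (X i)) c) :
    (∀ (w : FreeMagma I) (n : ℕ), SemisimpleTateIn Φ (wordObj X w) n) ↔
      (∀ i, SemisimpleTateIn Φ ((X i).prod (X i)) (X i).dim) ∧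
        RelationsRepresented W fr ((p : W.K) ^ m) := by
  classical
  constructor
  · intro h
    refine ⟨fun i => h (.mul (.of i) (.of i)) (X i).dim, ?_⟩
    rintro w L ⟨-, ⟨n, R, hR, hn, hL⟩, -⟩ ⟨y, hy0, hy⟩
    refine ⟨y, hy, ?_⟩
    obtain ⟨s, hs, hy1, hy2⟩ := eigProd_genTate (Φ := Φ) hm hfr hy hR hn hL
    have hpow : ∀ s : ℕ, ∀ c ∈ W.gr (wordObj X w) (2 * (wordObj X w).dim),
        (W.map (W534.iter (Φ.Fr (wordObj X w)) s)).toLinearMap c =
          (card Φ (wordObj X w) s : W.K) ^ (wordObj X w).dim • c := by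
      intro s c hc
      rw [map_iter_eq_pow]
      unfold card
      push_cast
      induction s with
      | zero => simp
      | succ s ih =>
        rw [pow_succ', Module.End.mul_apply, ih, map_smul, AlgHom.toLinearMap_apply, Φ.deg hc,
          smul_smul, ← pow_mul, ← pow_mul, ← pow_add]
        congr 2
        ring
    obtain ⟨n', a', z, h1, h2, h3, h4, h5⟩ := exists_dual_vec
      (fun x y => map_mul (W.map (W534.iter (Φ.Fr (wordObj X w)) s)) x y)
      (fun n x hx => W.map_mem _ hx) (hpow s) hy2 hy1 hy0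
    have hchar : CharZero W.K := W.charZero
    have hcard : (card Φ (wordObj X w) s : W.K) ≠ 0 := by
      unfold card
      exact_mod_cast (pow_pos Φ.p_pos _).ne'
    obtain ⟨d, hd⟩ : ∃ d, (wordObj X w).dim = n + d := ⟨(wordObj X w).dim - n, by omega⟩
    have hn' : n' = 2 * d := by omega
    have ha' : a' = (card Φ (wordObj X w) s : W.K) ^ d := by
      rw [hd, pow_add] at h2
      exact mul_left_cancel₀ (pow_ne_zero _ hcard) h2
    rw [ha'] at h4
    rw [hn'] at h3
    refine ⟨d, z, h w d s hs ⟨h4, h3⟩, ?_⟩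
    rw [W.even_comm h3]
    exact h5
  · rintro ⟨hsq, hrep⟩ w n s hs
    have hex := fun i => exists_gen_basis (F := W.K) (gr := W.gr (X i))
      ((W.isInternal (X i)).submodule_iSup_eq_top) (W.map (fr i)).toLinearMap
      (fun n x hx => W.map_mem (fr i) hx)
    choose b deg' μ' hb using hex
    let J : I → Type := fun i => Fin (Module.finrank W.K (W.H (X i)))
    let deg : (Σ i, J i) → ℕ := fun l => deg' l.1 l.2
    let μ : (Σ i, J i) → W.K := fun l => μ' l.1 l.2
    have hμ : ∀ i (j : J i), b i j ∈ Module.End.maxGenEigenspace (W.map (fr i)).toLinearMap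
      (μ ⟨i, j⟩) := fun i j => (hb i j).2
    have hgr : ∀ i (j : J i), b i j ∈ W.gr (X i) (deg ⟨i, j⟩) := fun i j => (hb i j).1
    refine (genTate_le_span' (b := fun i (j : J i) => b i j) hm hfr
      (fun i => (b i).span_eq) hμ hgr w hs n).trans ?_
    rw [Submodule.span_le]
    rintro x ⟨P, hP1, hP2, rfl⟩
    exact pp_mem' (b := fun i (j : J i) => b i j) hm hfr hμ hgr hsq hrep _ _ P le_rfl hP2 n hP1

end Pool.Agent.Y136.UB
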